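import Pool.Agent.Lib_helper87.UB.Defs

/-!
# UB block C1: `HT` is a normal subgroup; powers in `HT`
-/

set_option autoImplicit false

namespace Pool.Agent.UB

open Matrix NumberField Topology Polynomial
open Pool.Agent.TT Pool.Agent.TB Pool.Agent.TF Pool.Agent.RF

theorem ht_group {G k V : Type} [Group G] [Field k] [AddCommGroup V] [Module k V]
    [FiniteDimensional k V] (π : Representation k G V) (H : Subgroup G) :
    ∃ N : Subgroup G, N.Normal ∧ H ≤ N ∧ (N : Set G) = HT π H := by
  have hmul : ∀ (g h : G) (x : V), π (g * h) x = π g (π h x) := fun g h x => by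
    rw [map_mul, Module.End.mul_apply]
  have hone : ∀ x : V, π 1 x = x := fun x => by rw [map_one, Module.End.one_apply]
  let N : Subgroup G :=
    { carrier := HT π H
      one_mem' := by
        intro A B _ _ _ _ x _
        rw [hone, sub_self]
        exact A.zero_mem
      mul_mem' := by
        intro g h hg hh A B hAB hA hB hH x hx
        have h1 := hh A B hAB hA hB hH x hx
        have h2 := hg A B hAB hA hB hH x hx
        have h3 : π (g * h) x - x = π g (π h x - x) + (π g x - x) := by
          rw [hmul, map_sub]; abel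
        rw [h3]
        exact A.add_mem (hA g _ h1) h2
      inv_mem' := by
        intro g hg A B hAB hA hB hH x hx
        have h2 := hg A B hAB hA hB hH x hx
        have h3 : π g⁻¹ x - x = - π g⁻¹ (π g x - x) := by
          rw [map_sub, ← hmul, inv_mul_cancel, hone]; abel
        rw [h3]
        exact A.neg_mem (hA _ _ h2) }
  refine ⟨N, ⟨?_⟩, ?_, rfl⟩
  · intro g hg t A B hAB hA hB hH x hx
    have hg' : g ∈ HT π H := hg
    have h2 := hg' A B hAB hA hB hH (π t⁻¹ x) (hB _ _ hx)
    have h3 : π (t * g * t⁻¹) x - x = π t (π g (π t⁻¹ x) - π t⁻¹ x) := by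
      rw [map_sub, ← hmul, ← hmul, ← hmul, mul_inv_cancel, hone, mul_assoc]
    rw [h3]
    exact hA _ _ h2
  · intro h hh A B _ _ _ hH x hx
    exact hH h hh x hx

/-- stable subspaces are stable under polynomials -/
theorem c1_aeval_mem {k V : Type} [Field k] [AddCommGroup V] [Module k V] (f : Module.End k V)
    (A : Submodule k V) (hA : ∀ x ∈ A, f x ∈ A) (p : k[X]) : ∀ x ∈ A, aeval f p x ∈ A := by
  induction p using Polynomial.induction_on' with
  | add p q hp hq =>
    intro x hx
    rw [map_add, LinearMap.add_apply]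
    exact A.add_mem (hp x hx) (hq x hx)
  | monomial n a =>
    intro x hx
    rw [aeval_monomial, Module.End.mul_apply, Module.algebraMap_end_apply]
    refine A.smul_mem _ ?_
    induction n with
    | zero => rw [pow_zero, Module.End.one_apply]; exact hx
    | succ n ih =>
      rw [pow_succ', Module.End.mul_apply]
      exact hA _ ih

theorem ht_pow {G k V : Type} [Group G] [Field k] [CharZero k] [IsAlgClosed k]
    [AddCommGroup V] [Module k V] [FiniteDimensional k V] (π : Representation k G V)
    (H : Subgroup G) (g : G)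
    {e : ℕ} (he : 0 < e) (hge : g ^ e ∈ H) (n : ℕ)
    (hn : ∀ x : k, (∃ M : ℕ, 0 < M ∧ x ^ M = 1) → (π g).charpoly.IsRoot x → x ^ n = 1) :
    g ^ n ∈ HT π H := by
  intro A B hAB hA hB hH x hx
  classical
  rcases Nat.eq_zero_or_pos n with rfl | hn0
  · rw [pow_zero, map_one, Module.End.one_apply, sub_self]
    exact A.zero_mem
  set f : Module.End k V := π g with hf
  set χ : k[X] := f.charpoly with hχ
  set D : k[X] := EuclideanDomain.gcd (X ^ e - 1) χ with hD
  have hXe : (X ^ e - 1 : k[X]) ≠ 0 := X_pow_sub_C_ne_zero he (1 : k)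
  have hXn : (X ^ n - 1 : k[X]) ≠ 0 := X_pow_sub_C_ne_zero hn0 (1 : k)
  have hDe : D ∣ X ^ e - 1 := EuclideanDomain.gcd_dvd_left _ _
  have hDχ : D ∣ χ := EuclideanDomain.gcd_dvd_right _ _
  have hD0 : D ≠ 0 := ne_zero_of_dvd_ne_zero hXe hDe
  have hsep : (X ^ e - 1 : k[X]).Separable :=
    separable_X_pow_sub_C (1 : k) (by exact_mod_cast he.ne') one_ne_zero
  have hDsep : D.Separable := hsep.of_dvd hDe
  have hDn : D ∣ X ^ n - 1 := by
    refine (IsAlgClosed.splits D).dvd_of_roots_le_roots hD0 ?_
    rw [Multiset.le_iff_subset (nodup_roots hDsep)]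
    intro z hz
    rw [mem_roots hD0] at hz
    rw [mem_roots hXn]
    have h1 : (X ^ e - 1 : k[X]).IsRoot z := hz.dvd hDe
    have h2 : χ.IsRoot z := hz.dvd hDχ
    have h3 : z ^ e = 1 := by
      have : (X ^ e - 1 : k[X]).eval z = 0 := h1
      simpa [sub_eq_zero] using this
    have h4 : z ^ n = 1 := hn z ⟨e, he, h3⟩ h2
    show (X ^ n - 1 : k[X]).eval z = 0
    simp [h4]
  obtain ⟨S, hS⟩ := hDn
  have hbez := EuclideanDomain.gcd_eq_gcd_ab (X ^ e - 1 : k[X]) χ
  rw [← hD] at hbez
  set a : k[X] := EuclideanDomain.gcdA (X ^ e - 1) χ with ha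
  set b : k[X] := EuclideanDomain.gcdB (X ^ e - 1) χ with hb
  have hkey : (X ^ n - 1 : k[X]) = (S * a) * (X ^ e - 1) + (S * b) * χ := by
    rw [hS, hbez]; ring
  have h1 := congrArg (aeval f) hkey
  rw [map_add, map_mul, map_mul (aeval f) (S * b) χ, hχ, LinearMap.aeval_self_charpoly,
    mul_zero, add_zero] at h1
  have h2 : ∀ j : ℕ, (aeval f (X ^ j - 1 : k[X])) x = π (g ^ j) x - x := by
    intro j
    rw [map_sub, map_pow, aeval_X, map_one, LinearMap.sub_apply, Module.End.one_apply, hf,
      ← map_pow]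
  have h3 := congrArg (fun F : Module.End k V => F x) h1
  simp only [Module.End.mul_apply] at h3
  rw [h2, h2] at h3
  rw [h3]
  exact c1_aeval_mem f A (hA g) _ _ (hH _ hge x hx)

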