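import Pool.Agent.Lib_helper87.UB.Defs
import Pool.Agent.Lib_helper61.TR.Cliff

/-!
# Block C2: the multiplicity of the eigenvalue one
-/

set_option autoImplicit false

namespace Pool.Agent.UB

open Matrix NumberField Topology Polynomial
open Pool.Agent.TT Pool.Agent.TB Pool.Agent.TF Pool.Agent.RF

/-- The Clifford step for a fixed irreducible interval. -/
theorem c2_irr {k V G : Type} [Field k] [AddCommGroup V] [Module k V] [FiniteDimensional k V]
    [Group G] (π : Representation k G V) (H : Subgroup G) [hnorm : H.Normal]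
    {U₁ U₂ : Submodule k V} (hs1 : ∀ g, ∀ x ∈ U₁, π g x ∈ U₁) (hs2 : ∀ g, ∀ x ∈ U₂, π g x ∈ U₂)
    (hirr : ∀ U : Submodule k V, (∀ g, ∀ x ∈ U, π g x ∈ U) → U₁ ≤ U → U ≤ U₂ → U = U₁ ∨ U = U₂)
    {A₁ A₂ : Submodule k V} (ha : U₁ ≤ A₁) (hb : A₁ < A₂) (hc : A₂ ≤ U₂)
    (hd : ∀ h ∈ H, ∀ x ∈ A₂, π h x - x ∈ A₁) : ∀ h ∈ H, ∀ x ∈ U₂, π h x - x ∈ U₁ := by
  classical
  have hle12 : U₁ ≤ U₂ := ha.trans (hb.le.trans hc)
  have hA₁ : ∀ h ∈ H, ∀ x ∈ A₁, π h x ∈ A₁ := by
    intro h hh x hx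
    have := A₁.add_mem (hd h hh x (hb.le hx)) hx
    simpa using this
  have hA₂ : ∀ h ∈ H, ∀ x ∈ A₂, π h x ∈ A₂ := by
    intro h hh x hx
    have := A₂.add_mem (hb.le (hd h hh x hx)) hx
    simpa using this
  -- the vectors fixed by `H` modulo `U₁`
  let F : Submodule k V :=
    { carrier := {x | x ∈ U₂ ∧ ∀ h ∈ H, π h x - x ∈ U₁}
      add_mem' := by
        rintro x y ⟨hx, hx'⟩ ⟨hy, hy'⟩
        refine ⟨U₂.add_mem hx hy, fun h hh => ?_⟩
        have : π h (x + y) - (x + y) = (π h x - x) + (π h y - y) := by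
          rw [map_add]
          abel
        rw [this]
        exact U₁.add_mem (hx' h hh) (hy' h hh)
      zero_mem' := ⟨U₂.zero_mem, fun h _ => by simp⟩
      smul_mem' := by
        rintro c x ⟨hx, hx'⟩
        refine ⟨U₂.smul_mem c hx, fun h hh => ?_⟩
        rw [map_smul, ← smul_sub]
        exact U₁.smul_mem c (hx' h hh) }
  have hFdef : ∀ x, x ∈ F ↔ x ∈ U₂ ∧ ∀ h ∈ H, π h x - x ∈ U₁ := fun x => Iff.rfl
  have hFU : ∀ g, ∀ x ∈ F, π g x ∈ F := by
    intro g x hx
    rw [hFdef] at hx ⊢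
    refine ⟨hs2 g x hx.1, fun h hh => ?_⟩
    have h1 : g⁻¹ * h * g ∈ H := by
      have := hnorm.conj_mem h hh g⁻¹
      simpa using this
    have h2 := hs1 g _ (hx.2 _ h1)
    have h3 : π g (π (g⁻¹ * h * g) x - x) = π h (π g x) - π g x := by
      rw [map_sub, ← Module.End.mul_apply, ← map_mul, ← Module.End.mul_apply, ← map_mul]
      congr 3
      group
    rwa [h3] at h2
  have hU₁F : U₁ ≤ F := by
    intro x hx
    rw [hFdef]
    exact ⟨hle12 hx, fun h _ => U₁.sub_mem (hs1 h x hx) hx⟩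
  have hFle : F ≤ U₂ := fun x hx => ((hFdef x).mp hx).1
  rcases hirr F hFU hU₁F hFle with hF | hF
  swap
  · intro h hh x hx
    rw [← hF, hFdef] at hx
    exact hx.2 h hh
  exfalso
  -- a minimal `H`-stable subspace `T` above `U₁`
  have hexT : ∃ n : ℕ, ∃ T : Submodule k V, U₁ < T ∧ T ≤ U₂ ∧ (∀ h ∈ H, ∀ x ∈ T, π h x ∈ T) ∧
      Module.finrank k T = n :=
    ⟨_, U₂, lt_of_le_of_lt ha (lt_of_lt_of_le hb hc), le_refl _, fun h _ => hs2 h, rfl⟩
  obtain ⟨T, hT1, hT2, hT3, hT4⟩ := Nat.find_spec hexT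
  have hTmin : ∀ T' : Submodule k V, U₁ ≤ T' → T' ≤ T → (∀ h ∈ H, ∀ x ∈ T', π h x ∈ T') →
      T' = U₁ ∨ T' = T := by
    intro T' h1 h2 h3
    by_contra hne
    push Not at hne
    have hlt2 : Module.finrank k T' < Module.finrank k T :=
      Submodule.finrank_lt_finrank_of_lt (lt_of_le_of_ne h2 hne.2)
    rw [hT4] at hlt2
    exact Nat.find_min hexT hlt2 ⟨T', lt_of_le_of_ne h1 (Ne.symm hne.1), h2.trans hT2, h3, rfl⟩
  -- the conjugates of `T` generate `U₂`
  have hgT : ∀ B : Submodule k V, (∀ g, T.map (π g) ≤ B) → U₂ ≤ B := by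
    intro B hB
    let S : Submodule k V := ⨆ g, T.map (π g)
    have hS1 : ∀ g, ∀ x ∈ S, π g x ∈ S := by
      intro g x hx
      have h1 : S ≤ S.comap (π g) := by
        refine iSup_le fun g' => ?_
        rintro _ ⟨y, hy, rfl⟩
        rw [Submodule.mem_comap]
        refine Submodule.mem_iSup_of_mem (g * g') ?_
        refine ⟨y, hy, ?_⟩
        rw [map_mul]
        rfl
      exact h1 hx
    have hTS : T ≤ S := by
      intro x hx
      refine Submodule.mem_iSup_of_mem 1 ⟨x, hx, by simp⟩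
    have hS2 : S ≤ U₂ := by
      refine iSup_le fun g => ?_
      rintro _ ⟨y, hy, rfl⟩
      exact hs2 g y (hT2 hy)
    have hS3 : S ≤ B := iSup_le hB
    rcases hirr S hS1 (hT1.le.trans hTS) hS2 with h | h
    · exact absurd (h ▸ hTS) (not_le_of_gt hT1)
    · rw [← h]
      exact hS3
  -- a maximal `H`-stable subspace `C` that meets `A₁` in `U₁`
  have hexC : ∃ n : ℕ, ∃ C : Submodule k V, U₁ ≤ C ∧ C ≤ U₂ ∧ (∀ h ∈ H, ∀ x ∈ C, π h x ∈ C) ∧
      C ⊓ A₁ ≤ U₁ ∧ Module.finrank k C + n = Module.finrank k V := by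
    refine ⟨Module.finrank k V - Module.finrank k U₁, U₁, le_refl _, hle12, fun h _ => hs1 h, inf_le_left, ?_⟩
    have := Submodule.finrank_le U₁
    omega
  obtain ⟨C, hC1, hC2, hC3, hC4, hC5⟩ := Nat.find_spec hexC
  have hsup : U₂ ≤ A₁ ⊔ C := by
    refine hgT _ fun g => ?_
    by_contra hnot
    -- `g T` meets `A₁ ⊔ C` in `U₁`
    have hmeet : T.map (π g) ⊓ (A₁ ⊔ C) ≤ U₁ := by
      let T' : Submodule k V := T ⊓ (A₁ ⊔ C).comap (π g)
      have hT'1 : U₁ ≤ T' := by
        refine le_inf hT1.le ?_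
        intro x hx
        rw [Submodule.mem_comap]
        exact Submodule.mem_sup_left (ha (hs1 g x hx))
      have hT'2 : ∀ h ∈ H, ∀ x ∈ T', π h x ∈ T' := by
        intro h hh x hx
        refine ⟨hT3 h hh x hx.1, ?_⟩
        have hx2 : π g x ∈ A₁ ⊔ C := hx.2
        change π g (π h x) ∈ A₁ ⊔ C
        have hgh : g * h * g⁻¹ ∈ H := hnorm.conj_mem h hh g
        have h3 : π g (π h x) = π (g * h * g⁻¹) (π g x) := by
          rw [← Module.End.mul_apply, ← map_mul, ← Module.End.mul_apply, ← map_mul]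
          congr 2
          group
        rw [h3]
        obtain ⟨y, hy, z, hz, hyz⟩ := Submodule.mem_sup.mp hx2
        rw [← hyz, map_add]
        exact Submodule.add_mem_sup (hA₁ _ hgh y hy) (hC3 _ hgh z hz)
      rcases hTmin T' hT'1 inf_le_left hT'2 with h | h
      · rintro _ ⟨⟨y, hy, rfl⟩, h2⟩
        have : y ∈ T' := ⟨hy, h2⟩
        rw [h] at this
        exact hs1 g y this
      · exfalso
        apply hnot
        rintro _ ⟨y, hy, rfl⟩
        have : y ∈ T' := by
          rw [h]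
          exact hy
        exact this.2
    have hnotC : ¬ T.map (π g) ≤ C := fun h => hnot (h.trans le_sup_right)
    have hCC' : C < C ⊔ T.map (π g) := by
      refine lt_of_le_of_ne le_sup_left fun heq => hnotC ?_
      rw [heq]
      exact le_sup_right
    have hfr := Submodule.finrank_lt_finrank_of_lt hCC'
    have hfr2 := Submodule.finrank_le (C ⊔ T.map (π g))
    refine Nat.find_min hexC (m := Module.finrank k V - Module.finrank k (C ⊔ T.map (π g) : Submodule k V))
      (by omega) ⟨C ⊔ T.map (π g), hC1.trans le_sup_left, ?_, ?_, ?_, by omega⟩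
    · refine sup_le hC2 ?_
      rintro _ ⟨y, hy, rfl⟩
      exact hs2 g y (hT2 hy)
    · intro h hh x hx
      obtain ⟨y, hy, z, ⟨w, hw, rfl⟩, rfl⟩ := Submodule.mem_sup.mp hx
      rw [map_add]
      refine Submodule.add_mem_sup (hC3 h hh y hy) ⟨π (g⁻¹ * h * g) w, ?_, ?_⟩
      · refine hT3 _ ?_ w hw
        have := hnorm.conj_mem h hh g⁻¹
        simpa using this
      · rw [← Module.End.mul_apply, ← map_mul, ← Module.End.mul_apply, ← map_mul]
        congr 2
        group
    · rintro x ⟨hx1, hx2⟩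
      obtain ⟨c, hc', t, ht, rfl⟩ := Submodule.mem_sup.mp hx1
      have ht2 : t ∈ A₁ ⊔ C := by
        have : t = (c + t) + (-c) := by abel
        rw [this]
        exact Submodule.add_mem_sup hx2 (C.neg_mem hc')
      have ht3 : t ∈ U₁ := hmeet ⟨ht, ht2⟩
      exact hC4 ⟨C.add_mem hc' (hC1 ht3), hx2⟩
  -- a vector of `A₂ ⊓ C` outside `A₁`
  have hex2 : ∃ u ∈ A₂, u ∈ C ∧ u ∉ A₁ := by
    by_contra hno
    push Not at hno
    apply hb.not_ge
    intro x hx
    obtain ⟨y, hy, z, hz, rfl⟩ := Submodule.mem_sup.mp (hsup (hc hx))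
    have hz' : z ∈ A₂ := by
      have := A₂.sub_mem hx (hb.le hy)
      simpa using this
    exact A₁.add_mem hy (hno z hz' hz)
  obtain ⟨u, hu1, hu2, hu3⟩ := hex2
  have huF : u ∈ F := by
    rw [hFdef]
    refine ⟨hc hu1, fun h hh => hC4 ⟨C.sub_mem (hC3 h hh u hu2) hu2, hd h hh u hu1⟩⟩
  rw [hF] at huF
  exact hu3 (ha huF)

/-- The Fitting step. -/
theorem c2_fit {k V : Type} [Field k] [AddCommGroup V] [Module k V] [FiniteDimensional k V]
    (f : Module.End k V) {U₁ U₂ : Submodule k V} (hle : U₁ ≤ U₂)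
    (hf : ∀ x ∈ U₂, f x - x ∈ U₁) :
    U₂ ≤ U₁ ⊔ (f.maxGenEigenspace 1 ⊓ U₂) := by
  intro x hx
  have hst : ∀ y ∈ U₂, (f - 1) y ∈ U₂ := fun y hy => hle (hf y hy)
  let F : Module.End k U₂ := (f - 1).restrict hst
  have hF : ∀ y : U₂, ((F y : U₂) : V) = f y - y := fun y => rfl
  have hpow : ∀ (n : ℕ) (y : U₂), (((F ^ n) y : U₂) : V) = ((f - 1) ^ n) (y : V) := by
    intro n
    induction n with
    | zero => intro y; rfl
    | succ n ih =>
      intro y
      rw [pow_succ, pow_succ, Module.End.mul_apply, Module.End.mul_apply, ih]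
      rfl
  obtain ⟨N, hN⟩ := Filter.eventually_atTop.mp (LinearMap.eventually_isCompl_ker_pow_range_pow F)
  have hc := (hN (N + 1) (Nat.le_succ N)).sup_eq_top
  have hx' : (⟨x, hx⟩ : U₂) ∈ LinearMap.ker (F ^ (N + 1)) ⊔ LinearMap.range (F ^ (N + 1)) := by
    rw [hc]; exact Submodule.mem_top
  obtain ⟨e, he, r, ⟨s, hs⟩, her⟩ := Submodule.mem_sup.mp hx'
  have h1 : x = (r : V) + (e : V) := by
    have := congrArg (fun z : U₂ => (z : V)) her
    simp only [Submodule.coe_add] at this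
    rw [← this, add_comm]
  rw [h1]
  refine Submodule.add_mem_sup ?_ ⟨?_, e.2⟩
  · rw [← hs, pow_succ', Module.End.mul_apply, hF]
    exact hf _ ((F ^ N) s).2
  · rw [SetLike.mem_coe, Module.End.mem_maxGenEigenspace]
    refine ⟨N + 1, ?_⟩
    rw [one_smul, ← hpow, LinearMap.mem_ker.mp he]
    rfl

/-- Modular law for a fixed subspace. -/
theorem c2_dim {k V : Type} [Field k] [AddCommGroup V] [Module k V] [FiniteDimensional k V]
    (W U : Submodule k V) :
    Module.finrank k (W ⊔ U : Submodule k V) + Module.finrank k (W ⊓ U : Submodule k V) =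
      Module.finrank k W + Module.finrank k U :=
  Submodule.finrank_sup_add_finrank_inf_eq W U

theorem c2_main {G k V : Type} [Group G] [Field k] [AddCommGroup V] [Module k V]
    [FiniteDimensional k V] (π : Representation k G V) (H : Subgroup G) [H.Normal] (g : G)
    (hg : g ∈ HT π H) (n : ℕ) : ∀ (U₁ U₂ W₁ W₂ : Submodule k V),
      (∀ t, ∀ x ∈ U₁, π t x ∈ U₁) → (∀ t, ∀ x ∈ U₂, π t x ∈ U₂) → U₁ ≤ W₁ → W₁ ≤ W₂ → W₂ ≤ U₂ →
      (∀ h ∈ H, ∀ x ∈ W₂, π h x - x ∈ W₁) → Module.finrank k U₂ ≤ Module.finrank k U₁ + n →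
      Module.finrank k W₂ + Module.finrank k (Module.End.maxGenEigenspace (π g) 1 ⊓ U₁ : Submodule k V) ≤
        Module.finrank k W₁ + Module.finrank k (Module.End.maxGenEigenspace (π g) 1 ⊓ U₂ : Submodule k V) := by
  induction n with
  | zero =>
    intro U₁ U₂ W₁ W₂ hs1 hs2 h1 h2 h3 hH hn
    have hle : U₁ ≤ U₂ := h1.trans (h2.trans h3)
    have heq : U₁ = U₂ := Submodule.eq_of_le_of_finrank_le hle (by omega)
    have hW : W₁ = W₂ := le_antisymm h2 (h3.trans (heq ▸ h1))
    rw [hW, heq]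
  | succ n ih =>
    intro U₁ U₂ W₁ W₂ hs1 hs2 h1 h2 h3 hH hn
    have hle : U₁ ≤ U₂ := h1.trans (h2.trans h3)
    by_cases hirr : ∀ U : Submodule k V, (∀ g, ∀ x ∈ U, π g x ∈ U) → U₁ ≤ U → U ≤ U₂ →
        U = U₁ ∨ U = U₂
    · rcases eq_or_lt_of_le h2 with heq | hlt
      · rw [heq]
        have := Submodule.finrank_mono (inf_le_inf_left (Module.End.maxGenEigenspace (π g) 1) hle)
        omega
      · have hHU := c2_irr π H hs1 hs2 hirr h1 hlt h3 hH
        have hgU := hg U₁ U₂ hle hs1 hs2 hHU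
        have hfit := c2_fit (π g) hle hgU
        have e1 := c2_dim U₁ (Module.End.maxGenEigenspace (π g) 1 ⊓ U₂)
        have e2 : (U₁ ⊓ (Module.End.maxGenEigenspace (π g) 1 ⊓ U₂) : Submodule k V) =
            Module.End.maxGenEigenspace (π g) 1 ⊓ U₁ := by
          apply le_antisymm
          · exact le_inf (inf_le_right.trans inf_le_left) inf_le_left
          · exact le_inf inf_le_right (le_inf inf_le_left (inf_le_right.trans hle))
        rw [e2] at e1
        have e3 := Submodule.finrank_mono hfit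
        have e4 := Submodule.finrank_mono h1
        have e5 := Submodule.finrank_mono h3
        omega
    · push Not at hirr
      obtain ⟨U, hU, hU1, hU2, hne1, hne2⟩ := hirr
      have hlt1 : Module.finrank k U₁ < Module.finrank k U :=
        Submodule.finrank_lt_finrank_of_lt (lt_of_le_of_ne hU1 (Ne.symm hne1))
      have hlt2 : Module.finrank k U < Module.finrank k U₂ :=
        Submodule.finrank_lt_finrank_of_lt (lt_of_le_of_ne hU2 hne2)
      have i1 := ih U₁ U (W₁ ⊓ U) (W₂ ⊓ U) hs1 hU (le_inf h1 hU1) (inf_le_inf_right U h2)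
        inf_le_right (fun h hh x hx => ⟨hH h hh x hx.1, U.sub_mem (hU h x hx.2) hx.2⟩) (by omega)
      have i2 := ih U U₂ (W₁ ⊔ U) (W₂ ⊔ U) hU hs2 le_sup_right (sup_le_sup_right h2 U)
        (sup_le h3 hU2) (by
          intro h hh x hx
          obtain ⟨y, hy, z, hz, rfl⟩ := Submodule.mem_sup.mp hx
          have : π h (y + z) - (y + z) = (π h y - y) + (π h z - z) := by
            rw [map_add]
            abel
          rw [this]
          exact Submodule.add_mem_sup (hH h hh y hy) (U.sub_mem (hU h z hz) hz)) (by omega)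
      have d1 := c2_dim W₁ U
      have d2 := c2_dim W₂ U
      omega

/-- The multiplicity of the eigenvalue one of an element of `HT`. -/
theorem ht_mult {G k V : Type} [Group G] [Field k] [AddCommGroup V] [Module k V]
    [FiniteDimensional k V] (π : Representation k G V) (H : Subgroup G) [H.Normal]
    (W₁ W₂ : Submodule k V) (hW : W₁ ≤ W₂) (hH : ∀ h ∈ H, ∀ x ∈ W₂, π h x - x ∈ W₁) (g : G)
    (hg : g ∈ HT π H) :
    Module.finrank k W₂ ≤ Module.finrank k W₁ + (π g).charpoly.rootMultiplicity 1 := by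
  have h := c2_main π H g hg (Module.finrank k (⊤ : Submodule k V)) ⊥ ⊤ W₁ W₂
    (by
      intro t x hx
      rw [Submodule.mem_bot] at hx
      rw [hx, map_zero]
      exact Submodule.zero_mem _)
    (fun _ _ _ => Submodule.mem_top) bot_le hW le_top hH (by omega)
  rw [inf_bot_eq, inf_top_eq, finrank_bot, LinearMap.finrank_maxGenEigenspace_eq] at h
  simpa using h

end Pool.Agent.UB
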