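import Pool.Agent.Lib_helper87.UB.Defs

/-!
# UB block G1: commutators with `g₂`
-/

set_option autoImplicit false

namespace Pool.Agent.UB

open Matrix NumberField Topology Polynomial
open Pool.Agent.TT Pool.Agent.TB Pool.Agent.TF Pool.Agent.RF

section g1

variable {G k : Type} [Group G] [Field k] {y m : ℕ} (Ψ : ResData G k y m)

theorem g1_b_one : Ψ.b 1 = 0 := by
  have h := Ψ.b_mul 1 1
  rw [mul_one, map_one, Matrix.mul_one] at h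
  exact (left_eq_add).1 h

theorem g1_c_one : Ψ.c 1 = 0 := by
  have h := Ψ.c_mul 1 1
  rw [mul_one, map_one, Matrix.one_mul] at h
  exact (left_eq_add).1 h

theorem g1_b_mul {u v : G} (hv : Ψ.d v = 1) : Ψ.b (u * v) = Ψ.b v + Ψ.b u := by
  rw [Ψ.b_mul, hv, Matrix.mul_one]

theorem g1_c_mul {u v : G} (hu : Ψ.d u = 1) : Ψ.c (u * v) = Ψ.c u + Ψ.c v := by
  rw [Ψ.c_mul, hu, Matrix.one_mul]

theorem g1_d_inv {u : G} (hu : Ψ.d u = 1) : Ψ.d u⁻¹ = 1 := by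
  have h := map_mul Ψ.d u u⁻¹
  rw [mul_inv_cancel, map_one, hu, one_mul] at h
  exact h.symm

theorem g1_b_inv {u : G} (hu : Ψ.d u = 1) : Ψ.b u⁻¹ = -Ψ.b u := by
  have h := g1_b_mul Ψ (u := u⁻¹) hu
  rw [inv_mul_cancel, g1_b_one] at h
  exact (neg_eq_of_add_eq_zero_right h.symm).symm

theorem g1_c_inv {u : G} (hu : Ψ.d u = 1) : Ψ.c u⁻¹ = -Ψ.c u := by
  have h := g1_c_mul Ψ (v := u⁻¹) hu
  rw [mul_inv_cancel, g1_c_one] at h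
  exact (neg_eq_of_add_eq_zero_right h.symm).symm

theorem g1_b_conj (g : G) {u : G} (hu : Ψ.d u = 1) :
    Ψ.b (g * u * g⁻¹) = Ψ.b u * Ψ.d g⁻¹ := by
  have h := Ψ.b_mul g g⁻¹
  rw [mul_inv_cancel, g1_b_one] at h
  rw [mul_assoc, Ψ.b_mul, Ψ.b_mul, map_mul, hu, one_mul]
  have h2 : Ψ.b g⁻¹ + Ψ.b u * Ψ.d g⁻¹ + Ψ.b g * Ψ.d g⁻¹ =
      (Ψ.b g⁻¹ + Ψ.b g * Ψ.d g⁻¹) + Ψ.b u * Ψ.d g⁻¹ := by abel
  rw [h2, ← h, zero_add]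

theorem g1_c_conj (g : G) {u : G} (hu : Ψ.d u = 1) :
    Ψ.c (g * u * g⁻¹) = Ψ.d g * Ψ.c u := by
  have h := Ψ.c_mul g g⁻¹
  rw [mul_inv_cancel, g1_c_one] at h
  rw [mul_assoc, Ψ.c_mul, Ψ.c_mul, hu, Matrix.one_mul, Matrix.mul_add]
  have h2 : Ψ.c g + (Ψ.d g * Ψ.c u + Ψ.d g * Ψ.c g⁻¹) =
      (Ψ.c g + Ψ.d g * Ψ.c g⁻¹) + Ψ.d g * Ψ.c u := by abel
  rw [h2, ← h, zero_add]

theorem g1_d_conj (g : G) {u : G} (hu : Ψ.d u = 1) : Ψ.d (g * u * g⁻¹) = 1 := by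
  rw [map_mul, map_mul, hu, mul_one, ← map_mul, mul_inv_cancel, map_one]

end g1

theorem gr_onto {G k : Type} [Group G] [Field k] {y m : ℕ} (Ψ : ResData G k y m)
    (N : Subgroup G) [N.Normal] (g₂ : G) (hg₂ : g₂ ∈ N) (hd : IsUnit (Ψ.d g₂ - 1)) (u : G)
    (hu : Ψ.d u = 1) : ∃ v ∈ N, Ψ.d v = 1 ∧ Ψ.b v = Ψ.b u ∧ Ψ.c v = Ψ.c u := by
  classical
  set F : Set (Matrix (Fin y) (Fin m) k × Matrix (Fin m) (Fin y) k) :=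
    (fun g => (Ψ.b g, Ψ.c g)) '' {u | Ψ.d u = 1} with hF
  have hfin : F.Finite := by
    refine (Ψ.fin.image fun p => (p.1.2, p.2.1)).subset ?_
    rintro _ ⟨g, _, rfl⟩
    exact ⟨_, ⟨g, rfl⟩, rfl⟩
  set φ : Matrix (Fin y) (Fin m) k × Matrix (Fin m) (Fin y) k →
      Matrix (Fin y) (Fin m) k × Matrix (Fin m) (Fin y) k :=
    fun p => (p.1 * (Ψ.d g₂⁻¹ - 1), (Ψ.d g₂ - 1) * p.2) with hφ
  have hcomm : ∀ u' : G, Ψ.d u' = 1 → Ψ.d (g₂ * u' * g₂⁻¹ * u'⁻¹) = 1 ∧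
      Ψ.b (g₂ * u' * g₂⁻¹ * u'⁻¹) = Ψ.b u' * (Ψ.d g₂⁻¹ - 1) ∧
      Ψ.c (g₂ * u' * g₂⁻¹ * u'⁻¹) = (Ψ.d g₂ - 1) * Ψ.c u' := by
    intro u' hu'
    refine ⟨?_, ?_, ?_⟩
    · rw [map_mul, g1_d_conj Ψ g₂ hu', g1_d_inv Ψ hu', one_mul]
    · rw [g1_b_mul Ψ (g1_d_inv Ψ hu'), g1_b_inv Ψ hu', g1_b_conj Ψ g₂ hu', Matrix.mul_sub,
        Matrix.mul_one]
      abel
    · rw [g1_c_mul Ψ (g1_d_conj Ψ g₂ hu'), g1_c_inv Ψ hu', g1_c_conj Ψ g₂ hu', Matrix.sub_mul,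
        Matrix.one_mul]
      abel
  have hmaps : Set.MapsTo φ F F := by
    rintro _ ⟨u', hu', rfl⟩
    obtain ⟨h1, h2, h3⟩ := hcomm u' hu'
    exact ⟨_, h1, Prod.ext h2 h3⟩
  obtain ⟨W, hW⟩ := hd
  have hgg : Ψ.d g₂⁻¹ * Ψ.d g₂ = 1 := by rw [← map_mul, inv_mul_cancel, map_one]
  have hgg' : Ψ.d g₂ * Ψ.d g₂⁻¹ = 1 := by rw [← map_mul, mul_inv_cancel, map_one]
  have hinj : Set.InjOn φ F := by
    rintro ⟨b1, c1⟩ _ ⟨b2, c2⟩ _ h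
    have h1 : b1 * (Ψ.d g₂⁻¹ - 1) = b2 * (Ψ.d g₂⁻¹ - 1) := congrArg Prod.fst h
    have h2 : (Ψ.d g₂ - 1) * c1 = (Ψ.d g₂ - 1) * c2 := congrArg Prod.snd h
    have hWW : ((W⁻¹ : _ˣ) : Matrix (Fin m) (Fin m) k) * (Ψ.d g₂ - 1) = 1 := by
      rw [← hW]; exact Units.inv_mul W
    have hWW' : (Ψ.d g₂ - 1) * ((W⁻¹ : _ˣ) : Matrix (Fin m) (Fin m) k) = 1 := by
      rw [← hW]; exact Units.mul_inv W
    have h3 : (Ψ.d g₂⁻¹ - 1) * (-(Ψ.d g₂) * ((W⁻¹ : _ˣ) : Matrix (Fin m) (Fin m) k)) = 1 := by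
      rw [← Matrix.mul_assoc]
      have : (Ψ.d g₂⁻¹ - 1) * -(Ψ.d g₂) = Ψ.d g₂ - 1 := by
        rw [mul_neg, sub_mul, hgg, one_mul, neg_sub]
      rw [this, hWW']
    refine Prod.ext ?_ ?_
    · show b1 = b2
      calc b1 = b1 * ((Ψ.d g₂⁻¹ - 1) * (-(Ψ.d g₂) * ((W⁻¹ : _ˣ) : Matrix (Fin m) (Fin m) k))) := by
            rw [h3, Matrix.mul_one]
        _ = b2 * ((Ψ.d g₂⁻¹ - 1) * (-(Ψ.d g₂) * ((W⁻¹ : _ˣ) : Matrix (Fin m) (Fin m) k))) := by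
            rw [← Matrix.mul_assoc, h1, Matrix.mul_assoc]
        _ = b2 := by rw [h3, Matrix.mul_one]
    · show c1 = c2
      calc c1 = ((W⁻¹ : _ˣ) : Matrix (Fin m) (Fin m) k) * (Ψ.d g₂ - 1) * c1 := by
            rw [hWW, Matrix.one_mul]
        _ = ((W⁻¹ : _ˣ) : Matrix (Fin m) (Fin m) k) * (Ψ.d g₂ - 1) * c2 := by
            rw [Matrix.mul_assoc, h2, ← Matrix.mul_assoc]
        _ = c2 := by rw [hWW, Matrix.one_mul]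
  have hbij := (hfin.injOn_iff_bijOn_of_mapsTo hmaps).1 hinj
  obtain ⟨p, ⟨u', hu', rfl⟩, hp⟩ := hbij.surjOn (show (Ψ.b u, Ψ.c u) ∈ F from ⟨u, hu, rfl⟩)
  obtain ⟨h1, h2, h3⟩ := hcomm u' hu'
  refine ⟨g₂ * u' * g₂⁻¹ * u'⁻¹, ?_, h1, ?_, ?_⟩
  · have h4 : u' * g₂⁻¹ * u'⁻¹ ∈ N :=
      (inferInstance : N.Normal).conj_mem _ (N.inv_mem hg₂) u'
    have h5 : g₂ * u' * g₂⁻¹ * u'⁻¹ = g₂ * (u' * g₂⁻¹ * u'⁻¹) := by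
      simp only [mul_assoc]
    rw [h5]
    exact N.mul_mem hg₂ h4
  · rw [h2]; exact congrArg Prod.fst hp
  · rw [h3]; exact congrArg Prod.snd hp

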