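import Pool.Agent.Lib_helper87.UB.Defs
import Pool.Agent.Lib_helper87.UB.G1

/-!
# UB block G2: products of commutators
-/

set_option autoImplicit false

namespace Pool.Agent.UB

open Matrix

section g2

variable {G k : Type} [Group G] [Field k] {y m : ℕ} (Ψ : ResData G k y m)

theorem g2_a_one : Ψ.a 1 = 0 := by
  have h := Ψ.a_mul 1 1
  rw [mul_one, g1_b_one, Matrix.zero_mul, add_zero] at h
  exact left_eq_add.mp h

/-- The commutator of two elements with `d = 1`. -/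
theorem g2_comm {u v : G} (hu : Ψ.d u = 1) (hv : Ψ.d v = 1) (w : G) (hw : w * (v * u) = u * v) :
    Ψ.d w = 1 ∧ Ψ.b w = 0 ∧ Ψ.c w = 0 ∧ Ψ.a w = Ψ.b u * Ψ.c v - Ψ.b v * Ψ.c u := by
  have hd : Ψ.d w = 1 := by
    have h := congrArg Ψ.d hw
    rw [map_mul, map_mul, map_mul, hu, hv, mul_one, mul_one] at h
    exact h
  have hvu : Ψ.d (v * u) = 1 := by rw [map_mul, hu, hv, mul_one]
  have hb : Ψ.b w = 0 := by
    have h := congrArg Ψ.b hw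
    rw [g1_b_mul Ψ hvu, g1_b_mul Ψ hu, g1_b_mul Ψ hv] at h
    have h2 : Ψ.b u + Ψ.b v + Ψ.b w = Ψ.b u + Ψ.b v + 0 := by rw [h, add_zero, add_comm]
    exact add_left_cancel h2
  have hc : Ψ.c w = 0 := by
    have h := congrArg Ψ.c hw
    rw [g1_c_mul Ψ hd, g1_c_mul Ψ hv, g1_c_mul Ψ hu] at h
    have h2 : Ψ.c w + (Ψ.c v + Ψ.c u) = 0 + (Ψ.c v + Ψ.c u) := by
      rw [h, zero_add, add_comm]
    exact add_right_cancel h2
  refine ⟨hd, hb, hc, ?_⟩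
  have h := congrArg Ψ.a hw
  rw [Ψ.a_mul w, hb, Matrix.zero_mul, add_zero, Ψ.a_mul v u, Ψ.a_mul u v] at h
  have h2 : Ψ.a w = (Ψ.a w + (Ψ.a v + Ψ.a u + Ψ.b v * Ψ.c u)) -
      (Ψ.a v + Ψ.a u + Ψ.b v * Ψ.c u) := by abel
  rw [h2, h]
  abel

/-- There is an element of `N` with `d = 1`, `b = 0`, `c = 0` and the given `a`. -/
theorem gr_comm {G k : Type} [Group G] [Field k] {y m : ℕ} (Ψ : ResData G k y m)
    (N : Subgroup G) [N.Normal] (g₂ : G) (hg₂ : g₂ ∈ N) (hd : IsUnit (Ψ.d g₂ - 1)) {r : ℕ}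
    (u u' : Fin r → G) (hu : ∀ i, Ψ.d (u i) = 1) (hu' : ∀ i, Ψ.d (u' i) = 1) :
    ∃ w ∈ N, Ψ.d w = 1 ∧ Ψ.b w = 0 ∧ Ψ.c w = 0 ∧
      Ψ.a w = ∑ i, (Ψ.b (u i) * Ψ.c (u' i) - Ψ.b (u' i) * Ψ.c (u i)) := by
  induction r with
  | zero =>
    refine ⟨1, N.one_mem, map_one _, g1_b_one Ψ, g1_c_one Ψ, ?_⟩
    rw [g2_a_one, Finset.univ_eq_empty, Finset.sum_empty]
  | succ r ih =>
    obtain ⟨w, hwN, hwd, hwb, hwc, hwa⟩ := ih (fun i => u i.succ) (fun i => u' i.succ)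
      (fun i => hu i.succ) (fun i => hu' i.succ)
    obtain ⟨v, hvN, hvd, hvb, hvc⟩ := gr_onto Ψ N g₂ hg₂ hd (u 0) (hu 0)
    obtain ⟨v', hvN', hvd', hvb', hvc'⟩ := gr_onto Ψ N g₂ hg₂ hd (u' 0) (hu' 0)
    obtain ⟨hxd, hxb, hxc, hxa⟩ := g2_comm Ψ hvd hvd' (v * v' * (v' * v)⁻¹)
      (by rw [inv_mul_cancel_right])
    refine ⟨v * v' * (v' * v)⁻¹ * w, N.mul_mem (N.mul_mem (N.mul_mem hvN hvN')
      (N.inv_mem (N.mul_mem hvN' hvN))) hwN, ?_, ?_, ?_, ?_⟩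
    · rw [map_mul, hxd, hwd, mul_one]
    · rw [g1_b_mul Ψ hwd, hxb, hwb, add_zero]
    · rw [g1_c_mul Ψ hxd, hxc, hwc, add_zero]
    · rw [Ψ.a_mul, hxb, Matrix.zero_mul, add_zero, hxa, hwa, hvb, hvc, hvb', hvc',
        Fin.sum_univ_succ]

/-- The powers of `w`. -/
theorem gr_star {G k : Type} [Group G] [Field k] {y m : ℕ} (Ψ : ResData G k y m) (g₂ w : G)
    (hd : Ψ.d w = 1) (hb : Ψ.b w = 0) (hc : Ψ.c w = 0) (n : ℕ) :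
    Ψ.d (g₂ * w ^ n) = Ψ.d g₂ ∧ Ψ.star (g₂ * w ^ n) = Ψ.star g₂ + n • Ψ.a w := by
  have h1 : Ψ.d (w ^ n) = 1 ∧ Ψ.b (w ^ n) = 0 ∧ Ψ.c (w ^ n) = 0 ∧ Ψ.a (w ^ n) = n • Ψ.a w := by
    induction n with
    | zero =>
      rw [pow_zero]
      exact ⟨map_one _, g1_b_one Ψ, g1_c_one Ψ, by rw [g2_a_one, zero_smul]⟩
    | succ n ih =>
      obtain ⟨h1, h2, h3, h4⟩ := ih
      refine ⟨?_, ?_, ?_, ?_⟩
      · rw [pow_succ, map_mul, h1, hd, mul_one]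
      · rw [pow_succ, g1_b_mul Ψ hd, hb, h2, add_zero]
      · rw [pow_succ, g1_c_mul Ψ h1, h3, hc, add_zero]
      · rw [pow_succ, Ψ.a_mul, h2, Matrix.zero_mul, add_zero, h4, succ_nsmul]
  obtain ⟨hd', hb', hc', ha'⟩ := h1
  have h2 : Ψ.d (g₂ * w ^ n) = Ψ.d g₂ := by rw [map_mul, hd', mul_one]
  refine ⟨h2, ?_⟩
  unfold ResData.star
  rw [h2, Ψ.a_mul, Ψ.b_mul, Ψ.c_mul, hd', hb', hc', ha', Matrix.mul_zero, Matrix.mul_zero,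
    zero_add, Matrix.mul_one, add_zero, add_zero]
  abel

end g2

end Pool.Agent.UB
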