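import Pool.Agent.Lib_helper87.UB.Defs

/-!
# UB block M1: the multiplicity of an eigenvalue close to one (MP_97f789_ag)
-/

set_option autoImplicit false

namespace Pool.Agent.UB

open Matrix NumberField Topology Polynomial
open Pool.Agent.TT Pool.Agent.TB Pool.Agent.TF Pool.Agent.RF

section

variable {R : Type} [CommRing R] {y m : ℕ}

/-- the reduced characteristic matrix -/
private noncomputable def m1Q (lam s : R) (A : Matrix (Fin y) (Fin y) R) (B : Matrix (Fin y) (Fin m) R)
    (Cc : Matrix (Fin m) (Fin y) R) (D : Matrix (Fin m) (Fin m) R) :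
    Matrix (Fin y ⊕ Fin m) (Fin y ⊕ Fin m) R[X] :=
  fromBlocks (Matrix.scalar (Fin y) (C s + X) - A.map C) (-(B.map C)) (-(Cc.map C))
    (Matrix.scalar (Fin m) (C (1 + lam * s) + C lam * X) - D.map C)

private theorem m1_comp (lam s : R) (A : Matrix (Fin y) (Fin y) R) (B : Matrix (Fin y) (Fin m) R)
    (Cc : Matrix (Fin m) (Fin y) R) (D : Matrix (Fin m) (Fin m) R) :
    (fromBlocks (1 + lam • A) B (lam • Cc) D).charpoly.comp (C (1 + lam * s) + C lam * X) =
      (m1Q lam s A B Cc D).det * C lam ^ y := by
  have h1 : (fromBlocks (1 + lam • A) B (lam • Cc) D).charpoly.comp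
      (C (1 + lam * s) + C lam * X) = ((Polynomial.compRingHom (C (1 + lam * s) + C lam * X)).mapMatrix
        (charmatrix (fromBlocks (1 + lam • A) B (lam • Cc) D))).det := by
    rw [← RingHom.map_det]
    rfl
  have h2 : (Polynomial.compRingHom (C (1 + lam * s) + C lam * X)).mapMatrix
        (charmatrix (fromBlocks (1 + lam • A) B (lam • Cc) D)) =
      m1Q lam s A B Cc D * fromBlocks (Matrix.scalar (Fin y) (C lam)) 0 0 1 := by
    rw [m1Q, fromBlocks_multiply]
    simp only [Matrix.mul_zero, Matrix.mul_one, add_zero, zero_add]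
    ext i j : 1
    rcases i with i | i <;> rcases j with j | j
    · simp only [RingHom.mapMatrix_apply, Matrix.map_apply, charmatrix_apply, fromBlocks_apply₁₁,
        Polynomial.coe_compRingHom_apply, Matrix.sub_apply, Matrix.mul_apply, Matrix.scalar_apply,
        Matrix.diagonal_apply, Matrix.add_apply, Matrix.smul_apply, Matrix.one_apply, smul_eq_mul,
        Sum.inl.injEq, mul_ite, mul_zero, Finset.sum_ite_eq, Finset.sum_ite_eq', Finset.mem_univ,
        if_true]
      by_cases h : i = j
      · subst h
        simp only [if_true, Polynomial.sub_comp, Polynomial.X_comp, Polynomial.C_comp]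
        simp only [map_add, map_mul, map_one]
        ring
      · simp only [h, if_false, Polynomial.sub_comp, Polynomial.X_comp, Polynomial.C_comp,
          Polynomial.zero_comp]
        simp only [map_add, map_mul, map_zero]
        ring
    · simp [RingHom.mapMatrix_apply, charmatrix_apply]
    · simp only [RingHom.mapMatrix_apply, Matrix.map_apply, charmatrix_apply, fromBlocks_apply₂₁,
        Polynomial.coe_compRingHom_apply, Matrix.sub_apply, Matrix.mul_apply, Matrix.scalar_apply,
        Matrix.diagonal_apply, Matrix.smul_apply, Matrix.neg_apply, smul_eq_mul, mul_ite, mul_zero,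
        Finset.sum_ite_eq', Finset.mem_univ, if_true, reduceCtorEq, if_false, Polynomial.sub_comp,
        Polynomial.zero_comp, Polynomial.C_comp]
      simp only [map_mul]
      ring
    · simp only [RingHom.mapMatrix_apply, Matrix.map_apply, charmatrix_apply, fromBlocks_apply₂₂,
        Polynomial.coe_compRingHom_apply, Matrix.sub_apply, Matrix.scalar_apply,
        Matrix.diagonal_apply, Sum.inr.injEq]
      by_cases h : i = j
      · subst h
        simp
      · simp [h]
  rw [h1, h2, det_mul, det_fromBlocks_zero₂₁, det_one, mul_one]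
  simp

private theorem m1_red {k : Type} [Field k] (A : Matrix (Fin y) (Fin y) k) (B : Matrix (Fin y) (Fin m) k)
    (Cc : Matrix (Fin m) (Fin y) k) (D : Matrix (Fin m) (Fin m) k) (hD : IsUnit (D - 1)) :
    ∃ u : k, u ≠ 0 ∧ (m1Q 0 0 A B Cc D).det = C u * (A - B * (D - 1)⁻¹ * Cc).charpoly := by
  have hu : IsUnit (D - 1).det := (Matrix.isUnit_iff_isUnit_det _).1 hD
  set E : Matrix (Fin m) (Fin m) k := D - 1 with hE
  have hinv : E * E⁻¹ = 1 := Matrix.mul_nonsing_inv _ hu
  have hinv2 : E⁻¹ * E = 1 := Matrix.nonsing_inv_mul _ hu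
  have h22 : Matrix.scalar (Fin m) (C (1 + (0 : k) * 0) + C 0 * X) - D.map C =
      -(E.map (C : k →+* k[X])) := by
    rw [hE]
    ext i j : 1
    by_cases h : i = j
    · subst h; simp
    · simp [h, Matrix.one_apply]
  let I : Invertible (-(E.map (C : k →+* k[X]))) :=
    { invOf := -(E⁻¹.map (C : k →+* k[X]))
      invOf_mul_self := by
        rw [neg_mul_neg, ← Matrix.map_mul, hinv2]
        exact Matrix.map_one _ (map_zero _) (map_one _)
      mul_invOf_self := by
        rw [neg_mul_neg, ← Matrix.map_mul, hinv]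
        exact Matrix.map_one _ (map_zero _) (map_one _) }
  refine ⟨(-E).det, ?_, ?_⟩
  · rw [Matrix.det_neg]
    exact mul_ne_zero (pow_ne_zero _ (neg_ne_zero.2 one_ne_zero)) hu.ne_zero
  · rw [m1Q, h22, det_fromBlocks₂₂]
    have h1 : (-(E.map (C : k →+* k[X]))).det = C (-E).det := by
      rw [RingHom.map_det]
      congr 1
      ext i j : 1
      simp
    have h2 : Matrix.scalar (Fin y) (C 0 + X) - A.map (C : k →+* k[X]) -
        -(B.map C) * ⅟(-(E.map (C : k →+* k[X]))) * -(Cc.map C) =
        charmatrix (A - B * E⁻¹ * Cc) := by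
      have h3 : ⅟(-(E.map (C : k →+* k[X]))) = -(E⁻¹.map (C : k →+* k[X])) := rfl
      rw [h3]
      simp only [Matrix.neg_mul, Matrix.mul_neg, neg_neg]
      rw [← Matrix.map_mul, ← Matrix.map_mul]
      generalize B * E⁻¹ * Cc = Z
      ext i j : 1
      by_cases h : i = j
      · subst h
        simp [charmatrix_apply]
        ring
      · simp [charmatrix_apply, h]
        ring
    rw [h1, h2]
    rfl

end

theorem mu_bound {C : Type} [Field C] (O : ValuationSubring C) {y m : ℕ} (lam : O) (hlam : lam ≠ 0)
    (hlam1 : IsLocalRing.residue O lam = 0) (A : Matrix (Fin y) (Fin y) O)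
    (B : Matrix (Fin y) (Fin m) O) (Cc : Matrix (Fin m) (Fin y) O) (D : Matrix (Fin m) (Fin m) O)
    (hD : IsUnit (D.map (IsLocalRing.residue O) - 1)) (c : C) (s : O)
    (hs : IsLocalRing.residue O s = 0) (hc : c = 1 + lam * s) (e : ℕ)
    (he : (A.map (IsLocalRing.residue O) - B.map (IsLocalRing.residue O) *
      (D.map (IsLocalRing.residue O) - 1)⁻¹ * Cc.map (IsLocalRing.residue O)).charpoly.coeff e ≠ 0)
    (X : Matrix (Fin y ⊕ Fin m) (Fin y ⊕ Fin m) C)
    (hX : X = (fromBlocks (1 + lam • A) B (lam • Cc) D).map O.subtype) :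
    X.charpoly.rootMultiplicity c ≤ e := by
  obtain ⟨u, hu, hdet⟩ := m1_red (A.map (IsLocalRing.residue O)) (B.map (IsLocalRing.residue O))
    (Cc.map (IsLocalRing.residue O)) (D.map (IsLocalRing.residue O)) hD
  -- the reduction of the determinant
  have hred : (m1Q lam s A B Cc D).det.map (IsLocalRing.residue O) =
      (m1Q 0 0 (A.map (IsLocalRing.residue O)) (B.map (IsLocalRing.residue O))
        (Cc.map (IsLocalRing.residue O)) (D.map (IsLocalRing.residue O))).det := by
    have h1 : (m1Q lam s A B Cc D).det.map (IsLocalRing.residue O) =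
        (Polynomial.mapRingHom (IsLocalRing.residue O)) (m1Q lam s A B Cc D).det := rfl
    rw [h1, RingHom.map_det]
    congr 1
    unfold m1Q
    ext i j : 1
    rcases i with i | i <;> rcases j with j | j
    · by_cases h : i = j
      · subst h; simp [hs]
      · simp [h]
    · simp
    · simp
    · by_cases h : i = j
      · subst h; simp [hs, hlam1]
      · simp [h]
  have hcoef : (m1Q lam s A B Cc D).det.coeff e ≠ 0 := by
    intro h0
    have h1 := congrArg (fun q => Polynomial.coeff q e) hred
    simp only [Polynomial.coeff_map, h0, map_zero] at h1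
    rw [hdet, Polynomial.coeff_C_mul] at h1
    exact mul_ne_zero hu he h1.symm
  by_contra hlt
  rw [not_le] at hlt
  have hchar : X.charpoly = (fromBlocks (1 + lam • A) B (lam • Cc) D).charpoly.map O.subtype := by
    rw [hX, Matrix.charpoly_map]
  have hne : X.charpoly ≠ 0 := (Matrix.charpoly_monic X).ne_zero
  have hdvd : (Polynomial.X - Polynomial.C c) ^ (e + 1) ∣ X.charpoly :=
    (Polynomial.le_rootMultiplicity_iff hne).1 hlt
  obtain ⟨q, hq⟩ := hdvd
  have hcomp := congrArg (fun p => Polynomial.map O.subtype p) (m1_comp lam s A B Cc D)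
  simp only [Polynomial.map_comp, Polynomial.map_mul, Polynomial.map_pow, Polynomial.map_add,
    Polynomial.map_C, Polynomial.map_X] at hcomp
  rw [← hchar, hq] at hcomp
  have hc' : O.subtype (1 + lam * s) = c := by
    rw [hc]; simp
  rw [hc', Polynomial.mul_comp, Polynomial.pow_comp, Polynomial.sub_comp, Polynomial.X_comp,
    Polynomial.C_comp, add_sub_cancel_left, mul_pow, mul_assoc, mul_comm (Polynomial.C _ ^ (e+1)),
    mul_assoc] at hcomp
  have h1 := congrArg (fun p => Polynomial.coeff p e) hcomp
  rw [Polynomial.coeff_X_pow_mul', if_neg (by omega), ← Polynomial.C_pow, Polynomial.coeff_mul_C,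
    Polynomial.coeff_map] at h1
  have h2 : O.subtype ((m1Q lam s A B Cc D).det.coeff e) ≠ 0 := by
    intro h; exact hcoef (Subtype.ext h)
  have h3 : O.subtype lam ≠ 0 := by
    intro h; exact hlam (Subtype.ext h)
  exact mul_ne_zero h2 (pow_ne_zero y h3) h1.symm

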