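import Pool.Agent.Lib_helper87.UB.Defs

set_option autoImplicit false

namespace Pool.Agent.UB

open Matrix NumberField Topology Polynomial
open Pool.Agent.TT Pool.Agent.TB Pool.Agent.TF Pool.Agent.RF

/-- The eigenvalues of a multiple of an operator. -/
theorem mu_smul {k V : Type} [Field k] [AddCommGroup V] [Module k V] [FiniteDimensional k V]
    (T : Module.End k V) (c : k) (hc : c ≠ 0) :
    (c • T).charpoly.rootMultiplicity 1 = T.charpoly.rootMultiplicity c⁻¹ := by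
  rw [← LinearMap.finrank_maxGenEigenspace_eq, ← LinearMap.finrank_maxGenEigenspace_eq]
  suffices h0 : Module.End.maxGenEigenspace (c • T) 1 = Module.End.maxGenEigenspace T c⁻¹ by
    rw [h0]
  ext v
  rw [Module.End.mem_maxGenEigenspace, Module.End.mem_maxGenEigenspace]
  have h1 : c • T - (1 : k) • (1 : Module.End k V) = c • (T - c⁻¹ • (1 : Module.End k V)) := by
    rw [smul_sub, smul_smul, mul_inv_cancel₀ hc]
  refine exists_congr fun j => ?_
  rw [h1, _root_.smul_pow, LinearMap.smul_apply, smul_eq_zero]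
  constructor
  · rintro (h | h)
    · exact absurd h (pow_ne_zero _ hc)
    · exact h
  · exact Or.inr

/-- The eigenvalue one of a power in characteristic `p`. -/
theorem mu_unit {k : Type} [Field k] {p : ℕ} [Fact p.Prime] [CharP k p] {m : ℕ}
    (D : Matrix (Fin m) (Fin m) k) (M b : ℕ) (hD : IsUnit (D ^ M - 1)) :
    IsUnit (D ^ (M * p ^ b) - 1) := by
  rcases Nat.eq_zero_or_pos m with hm | hm
  · subst hm
    exact isUnit_of_subsingleton _
  · have : Nonempty (Fin m) := ⟨⟨0, hm⟩⟩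
    have h1 : (D ^ M - 1) ^ p ^ b = (D ^ M) ^ p ^ b - 1 ^ p ^ b :=
      sub_pow_char_pow_of_commute _ _ (Commute.one_right _)
    rw [one_pow, ← pow_mul] at h1
    rw [← h1]
    exact hD.pow _

/-- A uniform exponent for finitely many roots of unity. -/
theorem mu_exp {k : Type} [Field k] {p M d : ℕ} (f : k[X]) (hf : f ≠ 0)
    (hM : ∀ n : ℕ, 0 < n → n.totient ≤ d → n ∣ M)
    (h : ∀ x : k, (∃ N : ℕ, 0 < N ∧ x ^ N = 1) → f.IsRoot x →
      ∃ n b : ℕ, 0 < n ∧ n.totient ≤ d ∧ x ^ (n * p ^ b) = 1) :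
    ∃ b : ℕ, ∀ x : k, (∃ N : ℕ, 0 < N ∧ x ^ N = 1) → f.IsRoot x → x ^ (M * p ^ b) = 1 := by
  classical
  have h1 : ∀ x : k, ∃ b : ℕ, (∃ N : ℕ, 0 < N ∧ x ^ N = 1) → f.IsRoot x →
      x ^ (M * p ^ b) = 1 := by
    intro x
    by_cases hx : (∃ N : ℕ, 0 < N ∧ x ^ N = 1) ∧ f.IsRoot x
    · obtain ⟨n, b, hn, hnd, hnx⟩ := h x hx.1 hx.2
      refine ⟨b, fun _ _ => ?_⟩
      obtain ⟨c, hc⟩ := hM n hn hnd
      rw [hc, mul_right_comm, pow_mul, hnx, one_pow]
    · exact ⟨0, fun h2 h3 => absurd ⟨h2, h3⟩ hx⟩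
  choose b hb using h1
  refine ⟨∑ x ∈ f.roots.toFinset, b x, fun x h2 h3 => ?_⟩
  have hx : x ∈ f.roots.toFinset := by
    rw [Multiset.mem_toFinset, mem_roots hf]
    exact h3
  obtain ⟨c, hc⟩ := Nat.exists_eq_add_of_le (Finset.single_le_sum (f := b)
    (fun _ _ => Nat.zero_le _) hx)
  rw [hc, pow_add, ← mul_assoc, pow_mul, hb x h2 h3, one_pow]

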