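import Pool.Agent.Lib_helper87.UB.Defs

/-!
# UB, block R1: the blocks of a representation with two lattices
-/

set_option autoImplicit false

namespace Pool.Agent.UB

open Matrix NumberField Topology Polynomial
open Pool.Agent.TT Pool.Agent.TB Pool.Agent.TF Pool.Agent.RF

section r1

variable {K : Type} [Field K] (O : ValuationSubring K) (lam : O)

theorem r1_inj {a b : Type} {M N : Matrix a b O} (h : M.map O.subtype = N.map O.subtype) :
    M = N := by
  ext i j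
  have := congrFun (congrFun h i) j
  exact this

theorem r1_smul {a b : Type} (M : Matrix a b O) :
    (lam • M).map O.subtype = (lam : K) • M.map O.subtype := by
  ext i j
  simp

theorem r1_add {a b : Type} (M N : Matrix a b O) :
    (M + N).map O.subtype = M.map O.subtype + N.map O.subtype := by
  ext i j
  simp

theorem r1_mul {a b c : Type} [Fintype b] (M : Matrix a b O) (N : Matrix b c O) :
    (M * N).map O.subtype = M.map O.subtype * N.map O.subtype :=
  Matrix.map_mul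

theorem r1_one {a : Type} [DecidableEq a] :
    (1 : Matrix a a O).map O.subtype = 1 :=
  Matrix.map_one _ (map_zero _) (map_one _)

theorem r1_cancel {a b : Type} {l : K} (hl : l ≠ 0) {M N : Matrix a b K} (h : l • M = l • N) :
    M = N := by
  have h2 := congrArg (fun X : Matrix a b K => l⁻¹ • X) h
  simpa [smul_smul, inv_mul_cancel₀ hl] using h2

end r1

theorem re_blocks {G : Type} [Group G] {p : ℕ} [Fact p.Prime] {y m : ℕ}
    (R : G →* Matrix (Fin y ⊕ Fin m) (Fin y ⊕ Fin m) ℂ_[p]) (lam : nv ℂ_[p]) (hlam : lam ≠ 0)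
    (hL : TwoLattices R (lam : ℂ_[p])) :
    ∃ (A : G → Matrix (Fin y) (Fin y) (nv ℂ_[p])) (B : G → Matrix (Fin y) (Fin m) (nv ℂ_[p]))
      (C : G → Matrix (Fin m) (Fin y) (nv ℂ_[p])) (D : G → Matrix (Fin m) (Fin m) (nv ℂ_[p])),
      (∀ g, R g = (fromBlocks (1 + lam • A g) (B g) (lam • C g) (D g)).map (nv ℂ_[p]).subtype) ∧
      D 1 = 1 ∧
      (∀ g h, A (g * h) = A g + A h + lam • (A g * A h) + B g * C h) ∧
      (∀ g h, B (g * h) = B h + lam • (A g * B h) + B g * D h) ∧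
      (∀ g h, C (g * h) = C g + lam • (C g * A h) + D g * C h) ∧
      (∀ g h, D (g * h) = lam • (C g * B h) + D g * D h) := by
  have hl : (lam : ℂ_[p]) ≠ 0 := fun h => hlam (Subtype.ext h)
  have hln : 0 < ‖(lam : ℂ_[p])‖ := norm_pos_iff.2 hl
  have hq : ∀ x : ℂ_[p], ‖x‖ ≤ ‖(lam : ℂ_[p])‖ → (lam : ℂ_[p])⁻¹ * x ∈ nv ℂ_[p] := by
    intro x hx
    show ‖(lam : ℂ_[p])⁻¹ * x‖ ≤ 1
    rw [norm_mul, norm_inv, inv_mul_le_iff₀ hln, mul_one]
    exact hx
  set A : G → Matrix (Fin y) (Fin y) (nv ℂ_[p]) := fun g => Matrix.of fun i j =>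
    ⟨(lam : ℂ_[p])⁻¹ * ((R g).toBlocks₁₁ - 1) i j, hq _ ((hL g).2.2 i j)⟩ with hA
  set B : G → Matrix (Fin y) (Fin m) (nv ℂ_[p]) := fun g => Matrix.of fun i j =>
    ⟨(R g).toBlocks₁₂ i j, (hL g).1 (Sum.inl i) (Sum.inr j)⟩ with hB
  set C : G → Matrix (Fin m) (Fin y) (nv ℂ_[p]) := fun g => Matrix.of fun i j =>
    ⟨(lam : ℂ_[p])⁻¹ * (R g).toBlocks₂₁ i j, hq _ ((hL g).2.1 i j)⟩ with hC
  set D : G → Matrix (Fin m) (Fin m) (nv ℂ_[p]) := fun g => Matrix.of fun i j =>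
    ⟨(R g).toBlocks₂₂ i j, (hL g).1 (Sum.inr i) (Sum.inr j)⟩ with hD
  set φ := (nv ℂ_[p]).subtype with hφ
  have eA : ∀ g, (lam : ℂ_[p]) • (A g).map φ = (R g).toBlocks₁₁ - 1 := by
    intro g
    ext i j
    show (lam : ℂ_[p]) * ((lam : ℂ_[p])⁻¹ * ((R g).toBlocks₁₁ - 1) i j) = _
    rw [← mul_assoc, mul_inv_cancel₀ hl, one_mul]
  have eC : ∀ g, (lam : ℂ_[p]) • (C g).map φ = (R g).toBlocks₂₁ := by
    intro g
    ext i j
    show (lam : ℂ_[p]) * ((lam : ℂ_[p])⁻¹ * (R g).toBlocks₂₁ i j) = _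
    rw [← mul_assoc, mul_inv_cancel₀ hl, one_mul]
  have eB : ∀ g, (B g).map φ = (R g).toBlocks₁₂ := fun g => rfl
  have eD : ∀ g, (D g).map φ = (R g).toBlocks₂₂ := fun g => rfl
  have e11 : ∀ g, (1 + lam • A g).map φ = (R g).toBlocks₁₁ := by
    intro g
    rw [hφ, r1_add, r1_one, r1_smul, ← hφ, eA]
    abel
  have e21 : ∀ g, (lam • C g).map φ = (R g).toBlocks₂₁ := by
    intro g
    rw [hφ, r1_smul, ← hφ, eC]
  have key : ∀ g h, (R (g * h)).toBlocks₁₁ =
        (R g).toBlocks₁₁ * (R h).toBlocks₁₁ + (R g).toBlocks₁₂ * (R h).toBlocks₂₁ ∧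
      (R (g * h)).toBlocks₁₂ =
        (R g).toBlocks₁₁ * (R h).toBlocks₁₂ + (R g).toBlocks₁₂ * (R h).toBlocks₂₂ ∧
      (R (g * h)).toBlocks₂₁ =
        (R g).toBlocks₂₁ * (R h).toBlocks₁₁ + (R g).toBlocks₂₂ * (R h).toBlocks₂₁ ∧
      (R (g * h)).toBlocks₂₂ =
        (R g).toBlocks₂₁ * (R h).toBlocks₁₂ + (R g).toBlocks₂₂ * (R h).toBlocks₂₂ := by
    intro g h
    have h1 : R (g * h) = fromBlocks (R g).toBlocks₁₁ (R g).toBlocks₁₂ (R g).toBlocks₂₁
        (R g).toBlocks₂₂ * fromBlocks (R h).toBlocks₁₁ (R h).toBlocks₁₂ (R h).toBlocks₂₁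
        (R h).toBlocks₂₂ := by
      rw [fromBlocks_toBlocks, fromBlocks_toBlocks, map_mul]
    rw [fromBlocks_multiply] at h1
    rw [h1]
    simp only [toBlocks_fromBlocks₁₁, toBlocks_fromBlocks₁₂, toBlocks_fromBlocks₂₁,
      toBlocks_fromBlocks₂₂, and_self]
  refine ⟨A, B, C, D, ?_, ?_, ?_, ?_, ?_, ?_⟩
  · intro g
    rw [fromBlocks_map, e11, e21, eB, eD, fromBlocks_toBlocks]
  · apply r1_inj
    rw [← hφ, eD, map_one, hφ, r1_one]
    ext i j
    rw [toBlocks₂₂, Matrix.of_apply, Matrix.one_apply, Matrix.one_apply]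
    simp
  · intro g h
    apply r1_inj
    apply r1_cancel hl
    rw [← hφ, eA, (key g h).1]
    have h1 : (A g + A h + lam • (A g * A h) + B g * C h).map φ =
        (A g).map φ + (A h).map φ + (lam : ℂ_[p]) • ((A g).map φ * (A h).map φ) +
          (B g).map φ * (C h).map φ := by
      rw [hφ, r1_add, r1_add, r1_add, r1_smul, r1_mul, r1_mul]
    have h2 : (lam : ℂ_[p]) • ((A g).map φ + (A h).map φ +
          (lam : ℂ_[p]) • ((A g).map φ * (A h).map φ) + (B g).map φ * (C h).map φ) =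
        (lam : ℂ_[p]) • (A g).map φ + (lam : ℂ_[p]) • (A h).map φ +
          ((lam : ℂ_[p]) • (A g).map φ) * ((lam : ℂ_[p]) • (A h).map φ) +
          (B g).map φ * ((lam : ℂ_[p]) • (C h).map φ) := by
      rw [smul_add, smul_add, smul_add, Matrix.smul_mul, Matrix.mul_smul, Matrix.mul_smul]
    rw [h1, h2, eA, eA, eB, eC]
    noncomm_ring
  · intro g h
    apply r1_inj
    have h1 : (B h + lam • (A g * B h) + B g * D h).map φ =
        (B h).map φ + ((lam : ℂ_[p]) • (A g).map φ) * (B h).map φ +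
          (B g).map φ * (D h).map φ := by
      rw [hφ, r1_add, r1_add, r1_smul, r1_mul, r1_mul, Matrix.smul_mul]
    rw [← hφ, h1, eB, eB, eB, eA, eD, (key g h).2.1, Matrix.sub_mul, Matrix.one_mul]
    abel
  · intro g h
    apply r1_inj
    apply r1_cancel hl
    have h1 : (C g + lam • (C g * A h) + D g * C h).map φ =
        (C g).map φ + (lam : ℂ_[p]) • ((C g).map φ * (A h).map φ) +
          (D g).map φ * (C h).map φ := by
      rw [hφ, r1_add, r1_add, r1_smul, r1_mul, r1_mul]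
    have h2 : (lam : ℂ_[p]) • ((C g).map φ + (lam : ℂ_[p]) • ((C g).map φ * (A h).map φ) +
          (D g).map φ * (C h).map φ) =
        (lam : ℂ_[p]) • (C g).map φ + ((lam : ℂ_[p]) • (C g).map φ) *
          ((lam : ℂ_[p]) • (A h).map φ) + (D g).map φ * ((lam : ℂ_[p]) • (C h).map φ) := by
      rw [smul_add, smul_add, Matrix.smul_mul, Matrix.mul_smul, Matrix.mul_smul]
    rw [← hφ, h1, h2, eC, eC, eC, eA, eD, (key g h).2.2.1, Matrix.mul_sub, Matrix.mul_one]
    abel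
  · intro g h
    apply r1_inj
    have h1 : (lam • (C g * B h) + D g * D h).map φ =
        ((lam : ℂ_[p]) • (C g).map φ) * (B h).map φ + (D g).map φ * (D h).map φ := by
      rw [hφ, r1_add, r1_smul, r1_mul, r1_mul, Matrix.smul_mul]
    rw [← hφ, h1, eC, eB, eD, eD, eD, (key g h).2.2.2]

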