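import Pool.Agent.Lib_helper87.UB.Defs
import Pool.Agent.Lib_helper87.UB.R1

set_option autoImplicit false

namespace Pool.Agent.UB

open Matrix NumberField Topology Polynomial
open Pool.Agent.TT Pool.Agent.TB Pool.Agent.TF Pool.Agent.RF

section r2

variable {p : ℕ} [Fact p.Prime]

theorem r2_res (x y : nv ℂ_[p]) (h : ‖(x : ℂ_[p]) - (y : ℂ_[p])‖ < 1) :
    IsLocalRing.residue (nv ℂ_[p]) x = IsLocalRing.residue (nv ℂ_[p]) y := by
  rw [← sub_eq_zero, ← map_sub]
  exact residue_zero (x - y) h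

theorem r2_lam (lam x y : nv ℂ_[p]) (hlam : lam ≠ 0)
    (h : ‖((lam * x : nv ℂ_[p]) : ℂ_[p]) - ((lam * y : nv ℂ_[p]) : ℂ_[p])‖ < ‖(lam : ℂ_[p])‖) :
    IsLocalRing.residue (nv ℂ_[p]) x = IsLocalRing.residue (nv ℂ_[p]) y := by
  apply r2_res
  have h0 : (lam : ℂ_[p]) ≠ 0 := fun h' => hlam (Subtype.ext h')
  have h1 : ((lam * x : nv ℂ_[p]) : ℂ_[p]) - ((lam * y : nv ℂ_[p]) : ℂ_[p]) =
      (lam : ℂ_[p]) * ((x : ℂ_[p]) - (y : ℂ_[p])) := by
    show (lam : ℂ_[p]) * (x : ℂ_[p]) - (lam : ℂ_[p]) * (y : ℂ_[p]) = _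
    ring
  rw [h1, norm_mul] at h
  have h2 : 0 < ‖(lam : ℂ_[p])‖ := norm_pos_iff.2 h0
  by_contra h3
  push Not at h3
  nlinarith

end r2

theorem re_data {G : Type} [Group G] [TopologicalSpace G] [IsTopologicalGroup G] [CompactSpace G]
    {p : ℕ} [Fact p.Prime] {y m : ℕ}
    (R : G →* Matrix (Fin y ⊕ Fin m) (Fin y ⊕ Fin m) ℂ_[p]) (hR : Continuous R) (lam : nv ℂ_[p])
    (hlam : lam ≠ 0) (hlam1 : ‖(lam : ℂ_[p])‖ < 1) (hL : TwoLattices R (lam : ℂ_[p])) :
    ∃ (A : G → Matrix (Fin y) (Fin y) (nv ℂ_[p])) (B : G → Matrix (Fin y) (Fin m) (nv ℂ_[p]))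
      (C : G → Matrix (Fin m) (Fin y) (nv ℂ_[p])) (D : G → Matrix (Fin m) (Fin m) (nv ℂ_[p]))
      (Ψ : ResData G (IsLocalRing.ResidueField (nv ℂ_[p])) y m),
      (∀ g, R g = (fromBlocks (1 + lam • A g) (B g) (lam • C g) (D g)).map (nv ℂ_[p]).subtype) ∧
      (∀ g, Ψ.a g = (A g).map (IsLocalRing.residue (nv ℂ_[p]))) ∧
      (∀ g, Ψ.b g = (B g).map (IsLocalRing.residue (nv ℂ_[p]))) ∧
      (∀ g, Ψ.c g = (C g).map (IsLocalRing.residue (nv ℂ_[p]))) ∧
      (∀ g, Ψ.d g = (D g).map (IsLocalRing.residue (nv ℂ_[p]))) ∧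
      ∀ g, ∀ᶠ h in 𝓝 g, Ψ.a h = Ψ.a g ∧ Ψ.b h = Ψ.b g ∧ Ψ.c h = Ψ.c g ∧ Ψ.d h = Ψ.d g := by
  obtain ⟨A, B, C, D, hRg, hD1, hA, hB, hC, hD⟩ := re_blocks R lam hlam hL
  set r := IsLocalRing.residue (nv ℂ_[p]) with hr
  have hrl : r lam = 0 := residue_zero lam hlam1
  have hsm : ∀ {a b : ℕ} (M : Matrix (Fin a) (Fin b) (nv ℂ_[p])), (lam • M).map r = 0 := by
    intro a b M
    ext i j
    rw [Matrix.map_apply, Matrix.smul_apply, smul_eq_mul, map_mul, hrl, zero_mul]
    rfl
  have hadd : ∀ {a b : ℕ} (M N : Matrix (Fin a) (Fin b) (nv ℂ_[p])),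
      (M + N).map r = M.map r + N.map r := by
    intro a b M N
    ext i j
    simp only [Matrix.map_apply, Matrix.add_apply, map_add]
  have hmul : ∀ {a b c : ℕ} (M : Matrix (Fin a) (Fin b) (nv ℂ_[p]))
      (N : Matrix (Fin b) (Fin c) (nv ℂ_[p])), (M * N).map r = M.map r * N.map r := by
    intro a b c M N
    exact Matrix.map_mul
  -- local constancy
  have hloc : ∀ g, ∀ᶠ h in 𝓝 g, (A h).map r = (A g).map r ∧ (B h).map r = (B g).map r ∧
      (C h).map r = (C g).map r ∧ (D h).map r = (D g).map r := by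
    intro g
    have hlpos : 0 < ‖(lam : ℂ_[p])‖ := norm_pos_iff.2 fun h' => hlam (Subtype.ext h')
    have h1 : ∀ i j, ∀ᶠ h in 𝓝 g, ‖R h i j - R g i j‖ < ‖(lam : ℂ_[p])‖ := by
      intro i j
      have hc : Continuous fun h => ‖R h i j - R g i j‖ := by
        refine Continuous.norm (Continuous.sub ?_ continuous_const)
        exact (continuous_apply j).comp ((continuous_apply i).comp hR)
      have h0 : ‖R g i j - R g i j‖ < ‖(lam : ℂ_[p])‖ := by
        rw [sub_self, norm_zero]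
        exact hlpos
      exact hc.continuousAt.eventually (gt_mem_nhds h0)
    have h2 : ∀ᶠ h in 𝓝 g, ∀ i j, ‖R h i j - R g i j‖ < ‖(lam : ℂ_[p])‖ := by
      rw [Filter.eventually_all]
      intro i
      rw [Filter.eventually_all]
      intro j
      exact h1 i j
    filter_upwards [h2] with h hh
    refine ⟨?_, ?_, ?_, ?_⟩
    · ext i j
      rw [Matrix.map_apply, Matrix.map_apply]
      refine r2_lam lam _ _ hlam ?_
      have h3 := hh (Sum.inl i) (Sum.inl j)
      rw [hRg h, hRg g] at h3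
      simp only [Matrix.map_apply, fromBlocks_apply₁₁, Matrix.add_apply, Matrix.smul_apply,
        smul_eq_mul, map_add] at h3
      rw [add_sub_add_left_eq_sub] at h3
      exact h3
    · ext i j
      rw [Matrix.map_apply, Matrix.map_apply]
      refine r2_res _ _ ?_
      have h3 := hh (Sum.inl i) (Sum.inr j)
      rw [hRg h, hRg g] at h3
      simp only [Matrix.map_apply, fromBlocks_apply₁₂] at h3
      exact lt_trans h3 hlam1
    · ext i j
      rw [Matrix.map_apply, Matrix.map_apply]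
      refine r2_lam lam _ _ hlam ?_
      have h3 := hh (Sum.inr i) (Sum.inl j)
      rw [hRg h, hRg g] at h3
      simp only [Matrix.map_apply, fromBlocks_apply₂₁, Matrix.smul_apply, smul_eq_mul] at h3
      exact h3
    · ext i j
      rw [Matrix.map_apply, Matrix.map_apply]
      refine r2_res _ _ ?_
      have h3 := hh (Sum.inr i) (Sum.inr j)
      rw [hRg h, hRg g] at h3
      simp only [Matrix.map_apply, fromBlocks_apply₂₂] at h3
      exact lt_trans h3 hlam1
  have hfin : (Set.range fun g => (((A g).map r, (B g).map r), ((C g).map r, (D g).map r))).Finite := by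
    have hlc : IsLocallyConstant
        fun g => (((A g).map r, (B g).map r), ((C g).map r, (D g).map r)) := by
      rw [IsLocallyConstant.iff_eventually_eq]
      intro g
      filter_upwards [hloc g] with h hh
      rw [hh.1, hh.2.1, hh.2.2.1, hh.2.2.2]
    exact hlc.range_finite
  let d : G →* Matrix (Fin m) (Fin m) (IsLocalRing.ResidueField (nv ℂ_[p])) :=
    { toFun := fun g => (D g).map r
      map_one' := by
        rw [hD1]
        exact Matrix.map_one r (map_zero r) (map_one r)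
      map_mul' := by
        intro g h
        rw [hD, hadd, hsm, zero_add, hmul] }
  refine ⟨A, B, C, D, ⟨fun g => (A g).map r, fun g => (B g).map r, fun g => (C g).map r, d,
    ?_, ?_, ?_, hfin⟩, hRg, fun g => rfl, fun g => rfl, fun g => rfl, fun g => rfl, hloc⟩
  · intro g h
    rw [hA, hadd, hadd, hadd, hsm, add_zero, hmul]
  · intro g h
    rw [hB, hadd, hadd, hsm, add_zero, hmul]
    rfl
  · intro g h
    rw [hC, hadd, hadd, hsm, add_zero, hmul]
    rfl

end Pool.Agent.UB
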