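import Pool.Agent.Lib_helper87.UB.C1
import Pool.Agent.Lib_helper87.UB.C2
import Pool.Agent.Lib_helper87.UB.G2
import Pool.Agent.Lib_helper87.UB.M1
import Pool.Agent.Lib_helper87.UB.M2
import Pool.Agent.Lib_helper87.UB.R2
import Pool.Agent.Lib_helper87.UB.F1
import Pool.Agent.Lib_helper61.TU.Rank
import Pool.Agent.Lib_helper7.TE.Tools

/-!
# The main theorem
-/

set_option autoImplicit false

namespace Pool.Agent.UB

open Matrix NumberField Topology Polynomial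
open Pool.Agent.TT Pool.Agent.TB Pool.Agent.TF Pool.Agent.RF Pool.Agent.TU

theorem um_res_ne {p : ℕ} [Fact p.Prime] (x : nv ℂ_[p]) (hx : ‖(x : ℂ_[p])‖ = 1) :
    IsLocalRing.residue (nv ℂ_[p]) x ≠ 0 := by
  intro h
  rw [IsLocalRing.residue_eq_zero_iff, IsLocalRing.mem_maximalIdeal, mem_nonunits_iff] at h
  apply h
  have hx0 : (x : ℂ_[p]) ≠ 0 := by
    intro h0
    rw [h0, norm_zero] at hx
    exact zero_ne_one hx
  have hinv : ‖((x : ℂ_[p]))⁻¹‖ ≤ 1 := by rw [norm_inv, hx, inv_one]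
  have : x * ⟨((x : ℂ_[p]))⁻¹, hinv⟩ = 1 := Subtype.ext (mul_inv_cancel₀ hx0)
  exact IsUnit.of_mul_eq_one _ this

theorem um_norm_unit {p : ℕ} [Fact p.Prime] (x : nv ℂ_[p])
    (hx : IsLocalRing.residue (nv ℂ_[p]) x ≠ 0) : ‖(x : ℂ_[p])‖ = 1 := by
  refine le_antisymm x.2 ?_
  by_contra hcon
  push Not at hcon
  exact hx (residue_zero x hcon)

/-- The inverse of a matrix and ring homomorphisms. -/
theorem um_inv {A B : Type} [CommRing A] [CommRing B] (f : A →+* B) {m : ℕ}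
    (D : Matrix (Fin m) (Fin m) A) (hD : IsUnit D.det) : (D.map f)⁻¹ = D⁻¹.map f := by
  apply Matrix.inv_eq_right_inv
  rw [← Matrix.map_mul, Matrix.mul_nonsing_inv _ hD, Matrix.map_one _ (map_zero _) (map_one _)]

theorem um_smul {C : Type} [Field C] {n : Type} [Fintype n] [DecidableEq n] (X : Matrix n n C)
    (c : C) (hc : c ≠ 0) :
    (c • X).charpoly.rootMultiplicity 1 = X.charpoly.rootMultiplicity c⁻¹ := by
  have h1 := mu_smul (Matrix.toLin' X) c hc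
  rw [← map_smul, Matrix.charpoly_toLin', Matrix.charpoly_toLin'] at h1
  exact h1

/-- **The main theorem.** -/
theorem ub_main {K : Type} [Field K] [NumberField K] [Algebra K Qbar] {p a : ℕ}
    [hp : Fact p.Prime] {ζ : 𝓞 K} (hζ : IsPrimitiveRoot ζ (p ^ a)) (ha : 0 < a) {s : ℕ}
    (S : Fin s → Stratum K) (ip : K →+* ℂ_[p]) {y m : ℕ}
    (R : (Qbar ≃ₐ[K] Qbar) →* Matrix (Fin y ⊕ Fin m) (Fin y ⊕ Fin m) ℂ_[p]) (hR : Continuous R)
    (hRT : SumTraces (fun σ => (R σ).trace) ip (p ^ a) ζ S) (j : ℕ) (lam : ℂ_[p])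
    (hlam0 : lam ≠ 0) (hlam1 : ‖lam‖ < 1) (hL : TwoLattices (fun g => cycC p g ^ j • R g) lam)
    (M : ℕ) (hM : ∀ n : ℕ, 0 < n → n.totient ≤ y + m → n ∣ M)
    (g₀ : Qbar ≃ₐ[K] Qbar) (hg₀ : ‖((cycC p g₀ ^ j • R g₀).toBlocks₂₂ ^ M - 1).det‖ = 1) (e : ℕ)
    (he : ManyBrackets (fun g => cycC p g ^ j • R g) lam e)
    {ℓ : ℕ} [Fact ℓ.Prime] (il : K →+* PadicAlgCl ℓ) {V : Type} [AddCommGroup V]
    [Module (PadicAlgCl ℓ) V] [Module.Finite (PadicAlgCl ℓ) V]
    (hV : Module.finrank (PadicAlgCl ℓ) V = y + m)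
    (π : Representation (PadicAlgCl ℓ) (Qbar ≃ₐ[K] Qbar) V)
    (hπ : SumTraces (fun σ => LinearMap.trace (PadicAlgCl ℓ) V (π σ)) il (p ^ a) ζ S) :
    TateClassesLE π j e := by
  classical
  intro H hH W₁ W₂ hW hT
  have hgal := Pool.Agent.TE.isGalois_Qbar (K := K)
  obtain ⟨N', hN'⟩ := ProfiniteGrp.exist_openNormalSubgroup_sub_open_nhds_of_one hH H.one_mem
  let N : Subgroup (Qbar ≃ₐ[K] Qbar) := N'.toSubgroup
  have hNn : N.Normal := N'.isNormal'
  have hNo : IsOpen (N : Set (Qbar ≃ₐ[K] Qbar)) := N'.isOpen'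
  let π' := twist π j tv_cyc_mul tv_cyc_one
  have hπ' : ∀ σ x, π' σ x = cyc ℓ σ ^ j • π σ x := fun σ x => rfl
  have hπ'' : ∀ σ, π' σ = cyc ℓ σ ^ j • π σ := fun σ => rfl
  obtain ⟨T, hTn, hNT, hTc⟩ := ht_group π' N
  -- the twisted representation
  let X : (Qbar ≃ₐ[K] Qbar) →* Matrix (Fin y ⊕ Fin m) (Fin y ⊕ Fin m) ℂ_[p] :=
    { toFun := fun g => cycC p g ^ j • R g
      map_one' := by rw [cycC_one, one_pow, one_smul, map_one]
      map_mul' := fun g h => by rw [cycC_mul, mul_pow, map_mul, smul_mul_smul_comm] }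
  have hXdef : ∀ g, X g = cycC p g ^ j • R g := fun g => rfl
  have hXc : Continuous X := by
    change Continuous (fun g => cycC p g ^ j • R g)
    exact ((cycC_continuous (p := p) (K := K)).pow j).smul hR
  have hXL : TwoLattices X lam := hL
  have hXg₀ : ‖((X g₀).toBlocks₂₂ ^ M - 1).det‖ = 1 := hg₀
  have hXe : ManyBrackets X lam e := he
  clear_value X
  -- the reduction
  let lam' : nv ℂ_[p] := ⟨lam, hlam1.le⟩
  have hlam'0 : lam' ≠ 0 := fun h0 => hlam0 (congrArg Subtype.val h0)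
  obtain ⟨A, B, C, D, Ψ, hblk, hΨa, hΨb, hΨc, hΨd, hloc⟩ := re_data X hXc lam' hlam'0 hlam1 hXL
  have hchar : CharP (IsLocalRing.ResidueField (nv ℂ_[p])) p := residue_charP p
  have h11 : ∀ g, (X g).toBlocks₁₁ = (1 + lam' • A g).map (nv ℂ_[p]).subtype := by
    intro g
    rw [hblk g, Matrix.fromBlocks_map, Matrix.toBlocks_fromBlocks₁₁]
  have h22 : ∀ g, (X g).toBlocks₂₂ = (D g).map (nv ℂ_[p]).subtype := by
    intro g
    rw [hblk g, Matrix.fromBlocks_map, Matrix.toBlocks_fromBlocks₂₂]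
  have h12 : ∀ g, (X g).toBlocks₁₂ = (B g).map (nv ℂ_[p]).subtype := by
    intro g
    rw [hblk g, Matrix.fromBlocks_map, Matrix.toBlocks_fromBlocks₁₂]
  have h21 : ∀ g, (X g).toBlocks₂₁ = (lam' • C g).map (nv ℂ_[p]).subtype := by
    intro g
    rw [hblk g, Matrix.fromBlocks_map, Matrix.toBlocks_fromBlocks₂₁]
  have hsm : ∀ {i k : ℕ} (Y : Matrix (Fin i) (Fin k) (nv ℂ_[p])),
      (lam' • Y).map (nv ℂ_[p]).subtype = lam • Y.map (nv ℂ_[p]).subtype := by
    intro i k Y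
    ext i' k'
    rfl
  -- an inverse Frobenius element near `g₀`
  obtain ⟨t, htU, q, hq⟩ := fr_like hζ ha S ip R hRT il hV π hπ g₀ _ (hloc g₀)
  obtain ⟨-, -, -, htd⟩ := htU
  have hM0 : IsUnit (Ψ.d t ^ M - 1) := by
    rw [htd, Matrix.isUnit_iff_isUnit_det, isUnit_iff_ne_zero, hΨd]
    have h1 : ((D g₀).map (IsLocalRing.residue (nv ℂ_[p])) ^ M - 1).det =
        IsLocalRing.residue (nv ℂ_[p]) (((D g₀) ^ M - 1).det) := by
      rw [RingHom.map_det, RingHom.mapMatrix_apply, Matrix.map_sub _ (map_sub _),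
        Matrix.map_one _ (map_zero _) (map_one _)]
      congr 2
      exact (map_pow (RingHom.mapMatrix (IsLocalRing.residue (nv ℂ_[p]))) (D g₀) M).symm
    rw [h1]
    apply um_res_ne
    rw [← hXg₀]
    congr 1
    rw [h22]
    have h2 : ((D g₀).map (nv ℂ_[p]).subtype ^ M - 1) =
        ((D g₀) ^ M - 1).map (nv ℂ_[p]).subtype := by
      rw [Matrix.map_sub _ (map_sub _), Matrix.map_one _ (map_zero _) (map_one _)]
      congr 1
      exact (map_pow (RingHom.mapMatrix (nv ℂ_[p]).subtype) (D g₀) M).symm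
    rw [h2, ← RingHom.mapMatrix_apply, ← RingHom.map_det]
    rfl
  have hq0 : (q : PadicAlgCl ℓ) ≠ 0 := by
    have := hq.pos.ne'
    exact_mod_cast this
  have hcyc : cyc ℓ t ^ j = ((q : PadicAlgCl ℓ) ^ j)⁻¹ := by
    rw [← inv_pow]
    congr 1
    exact eq_inv_of_mul_eq_one_left hq.cyc
  -- a power in `T`
  obtain ⟨b₀, hb₀⟩ := mu_exp (p := p) (d := y + m) (π' t).charpoly
    (LinearMap.charpoly_monic _).ne_zero hM (by
      rintro x ⟨N₀, hN₀, hxN⟩ hx
      apply hq.order j x N₀ hN₀ hxN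
      rw [← Module.End.hasEigenvalue_iff_isRoot_charpoly] at hx ⊢
      obtain ⟨v, hv⟩ := hx.exists_hasEigenvector
      apply Module.End.hasEigenvalue_of_hasEigenvector (x := v)
      refine ⟨?_, hv.2⟩
      rw [Module.End.mem_eigenspace_iff]
      have h3 : cyc ℓ t ^ j • π t v = x • v := by
        rw [← hπ']
        exact hv.apply_eq_smul
      rw [mul_smul, ← h3, smul_smul, hcyc, mul_inv_cancel₀ (pow_ne_zero _ hq0), one_smul])
  have hfi : N.FiniteIndex :=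
    haveI := N.quotient_finite_of_isOpen hNo
    Subgroup.finiteIndex_of_finite_quotient
  obtain ⟨e₀, he₀, -, heN⟩ := Subgroup.exists_pow_mem_of_index_ne_zero hfi.index_ne_zero t
  have hg₂ : t ^ (M * p ^ b₀) ∈ T := by
    have := ht_pow π' N t he₀ heN (M * p ^ b₀) hb₀
    rw [← hTc] at this
    exact this
  set g₂ := t ^ (M * p ^ b₀) with hg₂def
  have hd₂ : IsUnit (Ψ.d g₂ - 1) := by
    rw [hg₂def, map_pow]
    exact mu_unit _ _ _ hM0
  -- the matrix `schur`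
  have hdet : ∀ g, IsUnit (Ψ.d g - 1) → IsUnit (D g - 1).det := by
    intro g hg
    rw [Matrix.isUnit_iff_isUnit_det, isUnit_iff_ne_zero] at hg
    have h1 : (Ψ.d g - 1).det = IsLocalRing.residue (nv ℂ_[p]) (D g - 1).det := by
      rw [RingHom.map_det, RingHom.mapMatrix_apply, Matrix.map_sub _ (map_sub _),
        Matrix.map_one _ (map_zero _) (map_one _), hΨd]
    rw [h1] at hg
    exact (IsLocalRing.residue_ne_zero_iff_isUnit _).mp hg
  have hschur : ∀ g, IsUnit (Ψ.d g - 1) → ∃ Z : Matrix (Fin y) (Fin y) (nv ℂ_[p]),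
      schur lam (X g) = Z.map (nv ℂ_[p]).subtype ∧
        Ψ.star g = Z.map (IsLocalRing.residue (nv ℂ_[p])) := by
    intro g hg
    have hu := hdet g hg
    refine ⟨A g - B g * (D g - 1)⁻¹ * C g, ?_, ?_⟩
    · unfold schur
      have h1 : (X g).toBlocks₂₂ - 1 = (D g - 1).map (nv ℂ_[p]).subtype := by
        rw [h22, Matrix.map_sub _ (map_sub _), Matrix.map_one _ (map_zero _) (map_one _)]
      have h2 : (X g).toBlocks₁₁ - 1 = lam • (A g).map (nv ℂ_[p]).subtype := by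
        rw [h11, Matrix.map_add _ (map_add _), Matrix.map_one _ (map_zero _) (map_one _), hsm,
          add_sub_cancel_left]
      rw [h2, h1, um_inv _ _ hu, h12, h21, hsm, Matrix.mul_smul, ← smul_sub, smul_smul,
        inv_mul_cancel₀ hlam0, one_smul, Matrix.map_sub _ (map_sub _), Matrix.map_mul,
        Matrix.map_mul]
    · unfold ResData.star
      have h1 : Ψ.d g - 1 = (D g - 1).map (IsLocalRing.residue (nv ℂ_[p])) := by
        rw [hΨd, Matrix.map_sub _ (map_sub _), Matrix.map_one _ (map_zero _) (map_one _)]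
      rw [h1, um_inv _ _ hu, hΨa, hΨb, hΨc, Matrix.map_sub _ (map_sub _), Matrix.map_mul,
        Matrix.map_mul]
  -- the elements `u_i`, `v_i`
  have hred : ∀ g, ResiduallyOne (X g) → Ψ.d g = 1 := by
    intro g hg
    ext i k
    rw [hΨd, Matrix.map_apply]
    have h1 : ‖(((D g i k - (1 : Matrix (Fin m) (Fin m) (nv ℂ_[p])) i k : nv ℂ_[p])) :
        ℂ_[p])‖ < 1 := by
      have h2 := hg i k
      rw [h22, Matrix.sub_apply, Matrix.map_apply] at h2
      have h3 : (((1 : Matrix (Fin m) (Fin m) (nv ℂ_[p])) i k : nv ℂ_[p]) : ℂ_[p]) =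
          (1 : Matrix (Fin m) (Fin m) ℂ_[p]) i k := by
        rw [Matrix.one_apply, Matrix.one_apply]
        split_ifs
        · rfl
        · rfl
      have h4 : (((D g i k - (1 : Matrix (Fin m) (Fin m) (nv ℂ_[p])) i k : nv ℂ_[p])) : ℂ_[p]) =
          ((D g i k : nv ℂ_[p]) : ℂ_[p]) - (1 : Matrix (Fin m) (Fin m) ℂ_[p]) i k := by
        rw [← h3]
        rfl
      rw [h4]
      exact h2
    have h5 := residue_zero _ h1
    rw [map_sub, sub_eq_zero] at h5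
    rw [h5, Matrix.one_apply, Matrix.one_apply]
    split_ifs
    · exact map_one _
    · exact map_zero _
  obtain ⟨r, u, v, huv, hco⟩ := hXe g₂ (by
    have h1 : (X g₂).toBlocks₂₂ - 1 = (D g₂ - 1).map (nv ℂ_[p]).subtype := by
      rw [h22, Matrix.map_sub _ (map_sub _), Matrix.map_one _ (map_zero _) (map_one _)]
    rw [h1, ← RingHom.mapMatrix_apply, ← RingHom.map_det]
    apply um_norm_unit
    exact (IsLocalRing.residue_ne_zero_iff_isUnit _).mpr (hdet g₂ hd₂))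
  obtain ⟨w, hwT, hwd, hwb, hwc, hwa⟩ := gr_comm Ψ T g₂ hg₂ hd₂ u v (fun i => hred _ (huv i).1)
    (fun i => hred _ (huv i).2)
  have hbr : ∑ i, bracket lam (X (u i)) (X (v i)) =
      (∑ i, (B (u i) * C (v i) - B (v i) * C (u i))).map (nv ℂ_[p]).subtype := by
    have h1 : ∀ g h, bracket lam (X g) (X h) =
        (B g * C h - B h * C g).map (nv ℂ_[p]).subtype := by
      intro g h
      unfold bracket
      rw [h12, h12, h21, h21, hsm, hsm, Matrix.mul_smul, Matrix.mul_smul, ← smul_sub, smul_smul,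
        inv_mul_cancel₀ hlam0, one_smul, Matrix.map_sub _ (map_sub _), Matrix.map_mul,
        Matrix.map_mul]
    rw [Finset.sum_congr rfl fun i _ => h1 (u i) (v i)]
    exact (map_sum (RingHom.mapMatrix (nv ℂ_[p]).subtype).toAddMonoidHom _ _).symm
  have hwa' : Ψ.a w = (∑ i, (B (u i) * C (v i) - B (v i) * C (u i))).map
      (IsLocalRing.residue (nv ℂ_[p])) := by
    rw [hwa]
    have h1 : ∀ i, Ψ.b (u i) * Ψ.c (v i) - Ψ.b (v i) * Ψ.c (u i) =
        (B (u i) * C (v i) - B (v i) * C (u i)).map (IsLocalRing.residue (nv ℂ_[p])) := by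
      intro i
      rw [Matrix.map_sub _ (map_sub _), Matrix.map_mul, Matrix.map_mul, hΨb, hΨb, hΨc, hΨc]
    rw [Finset.sum_congr rfl fun i _ => h1 i]
    exact (map_sum (RingHom.mapMatrix (IsLocalRing.residue (nv ℂ_[p]))).toAddMonoidHom _ _).symm
  obtain ⟨Z, hZ1, hZ2⟩ := hschur g₂ hd₂
  have hcoeff : (Ψ.star g₂ + Ψ.a w).charpoly.coeff e ≠ 0 := by
    rw [hwa', hZ2, ← Matrix.map_add _ (map_add _), Matrix.charpoly_map, Polynomial.coeff_map]
    apply um_res_ne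
    rw [← hco, hbr, hZ1, ← Matrix.map_add _ (map_add _), Matrix.charpoly_map,
      Polynomial.coeff_map]
    rfl
  obtain ⟨hxd, hxs⟩ := gr_star Ψ g₂ w hwd hwb hwc 1
  rw [pow_one, one_smul] at hxs
  rw [pow_one] at hxd
  set x := g₂ * w with hx
  have hxT : x ∈ T := T.mul_mem hg₂ hwT
  -- an inverse Frobenius element near `x`
  have hUx : {h : Qbar ≃ₐ[K] Qbar | (Ψ.a h = Ψ.a x ∧ Ψ.b h = Ψ.b x ∧ Ψ.c h = Ψ.c x ∧
      Ψ.d h = Ψ.d x) ∧ x⁻¹ * h ∈ N} ∈ 𝓝 x := by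
    apply Filter.inter_mem (hloc x)
    apply (hNo.preimage (continuous_const_mul x⁻¹)).mem_nhds
    rw [Set.mem_preimage, inv_mul_cancel]
    exact N.one_mem
  obtain ⟨t', ⟨⟨ht'a, ht'b, ht'c, ht'd⟩, ht'N⟩, q', hq'⟩ :=
    fr_like hζ ha S ip R hRT il hV π hπ x _ hUx
  have ht'T : t' ∈ T := by
    have h1 := T.mul_mem hxT (hNT ht'N)
    rwa [mul_inv_cancel_left] at h1
  have hq'0 : (q' : PadicAlgCl ℓ) ≠ 0 := by
    have := hq'.pos.ne'
    exact_mod_cast this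
  have hq'p : (q' : ℂ_[p]) ≠ 0 := by
    have := hq'.pos.ne'
    exact_mod_cast this
  have hcyc' : cyc ℓ t' ^ j = ((q' : PadicAlgCl ℓ) ^ j)⁻¹ := by
    rw [← inv_pow]
    congr 1
    exact eq_inv_of_mul_eq_one_left hq'.cyc
  have hcycp : cycC p t' ^ j = ((q' : ℂ_[p]) ^ j)⁻¹ := by
    rw [← inv_pow]
    congr 1
    exact eq_inv_of_mul_eq_one_left hq'.cycp
  have h1 := ht_mult π' N W₁ W₂ hW (fun h hh z hz => hT h (hN' hh) z hz) t' (by
    rw [← hTc]
    exact ht'T)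
  refine h1.trans (Nat.add_le_add_left ?_ _)
  rw [hπ'', mu_smul _ _ (by rw [hcyc']; exact inv_ne_zero (pow_ne_zero _ hq'0)), hcyc', inv_inv]
  have h2 := hq'.mult (q' ^ j)
  rw [Nat.cast_pow, Nat.cast_pow] at h2
  rw [h2]
  have h3 := um_smul (R t') (cycC p t' ^ j)
    (by rw [hcycp]; exact inv_ne_zero (pow_ne_zero _ hq'p))
  rw [← hXdef, hcycp, inv_inv] at h3
  rw [← h3]
  refine mu_bound (nv ℂ_[p]) lam' hlam'0 (residue_zero _ hlam1) (A t') (B t') (C t') (D t') ?_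
    1 0 (map_zero _) ?_ e ?_ _ (hblk t')
  · rw [← hΨd, ht'd, hxd]
    exact hd₂
  · show (1 : ℂ_[p]) = 1 + lam * 0
    rw [mul_zero, add_zero]
  · rw [← hΨa, ← hΨb, ← hΨc, ← hΨd, ht'a, ht'b, ht'c, ht'd]
    have h5 : Ψ.a x - Ψ.b x * (Ψ.d x - 1)⁻¹ * Ψ.c x = Ψ.star x := rfl
    rw [h5, hxs]
    exact hcoeff

end Pool.Agent.UB
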