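import Pool.Agent.Lib_helper87.UB.Statement
import Pool.Agent.Lib_helper28.TE28.Res

/-!
# Internal definitions
-/

set_option autoImplicit false

namespace Pool.Agent.UB

open Matrix NumberField Topology Polynomial
open Pool.Agent.TT Pool.Agent.TB Pool.Agent.TF Pool.Agent.RF

/-- The reduction of a representation with two lattices. -/
structure ResData (G k : Type) [Group G] [Field k] (y m : ℕ) where
  a : G → Matrix (Fin y) (Fin y) k
  b : G → Matrix (Fin y) (Fin m) k
  c : G → Matrix (Fin m) (Fin y) k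
  d : G →* Matrix (Fin m) (Fin m) k
  a_mul : ∀ g h, a (g * h) = a g + a h + b g * c h
  b_mul : ∀ g h, b (g * h) = b h + b g * d h
  c_mul : ∀ g h, c (g * h) = c g + d g * c h
  fin : (Set.range fun g => ((a g, b g), (c g, d g))).Finite

/-- The matrix `a - b (d - 1)⁻¹ c`. -/
noncomputable def ResData.star {G k : Type} [Group G] [Field k] {y m : ℕ} (Ψ : ResData G k y m)
    (x : G) : Matrix (Fin y) (Fin y) k :=
  Ψ.a x - Ψ.b x * (Ψ.d x - 1)⁻¹ * Ψ.c x

/-- The subquotients on which `H` acts trivially: the subgroup of all `g` that act trivially on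
every `G`-stable subquotient on which `H` acts trivially. -/
def HT {G k V : Type} [Group G] [Field k] [AddCommGroup V] [Module k V]
    (π : Representation k G V) (H : Subgroup G) : Set G :=
  {g | ∀ A B : Submodule k V, A ≤ B → (∀ t, ∀ x ∈ A, π t x ∈ A) → (∀ t, ∀ x ∈ B, π t x ∈ B) →
    (∀ h ∈ H, ∀ x ∈ B, π h x - x ∈ A) → ∀ x ∈ B, π g x - x ∈ A}

/-- The twist of a representation by the `j`-th power of the cyclotomic character. -/
noncomputable def twist {K : Type} [Field K] [Algebra K Qbar] {ℓ : ℕ} [Fact ℓ.Prime] {V : Type}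
    [AddCommGroup V] [Module (PadicAlgCl ℓ) V]
    (π : Representation (PadicAlgCl ℓ) (Qbar ≃ₐ[K] Qbar) V) (j : ℕ)
    (hmul : ∀ σ τ : Qbar ≃ₐ[K] Qbar, cyc ℓ (σ * τ) = cyc ℓ σ * cyc ℓ τ)
    (hone : cyc ℓ (1 : Qbar ≃ₐ[K] Qbar) = 1) :
    Representation (PadicAlgCl ℓ) (Qbar ≃ₐ[K] Qbar) V where
  toFun σ := cyc ℓ σ ^ j • π σ
  map_one' := by rw [hone, one_pow, one_smul, map_one]
  map_mul' σ τ := by
    rw [hmul, mul_pow, map_mul, smul_mul_smul_comm]

/-- The element `t` behaves like the inverse of a Frobenius element of a prime field with `q`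
elements: the characteristic polynomials of `R(t)` and `π(t)` agree (in the form in which we use
it), `cyc(t) q = 1` for both cyclotomic characters, `q` is congruent to `1` modulo `p`, and the roots of unity `x` for which
`q ^ j x` is an eigenvalue of `π(t)` have order `n p ^ b` with `φ(n) ≤ y + m`. -/
structure FrobLike {K : Type} [Field K] [Algebra K Qbar] {p ℓ : ℕ} [Fact p.Prime] [Fact ℓ.Prime]
    {y m : ℕ} (R : (Qbar ≃ₐ[K] Qbar) →* Matrix (Fin y ⊕ Fin m) (Fin y ⊕ Fin m) ℂ_[p])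
    {V : Type} [AddCommGroup V] [Module (PadicAlgCl ℓ) V] [Module.Finite (PadicAlgCl ℓ) V]
    (π : Representation (PadicAlgCl ℓ) (Qbar ≃ₐ[K] Qbar) V) (t : Qbar ≃ₐ[K] Qbar) (q : ℕ) :
    Prop where
  pos : 0 < q
  near : ‖(q : ℂ_[p]) - 1‖ ≤ ‖(p : ℂ_[p])‖
  cyc : cyc ℓ t * (q : PadicAlgCl ℓ) = 1
  cycp : cycC p t * (q : ℂ_[p]) = 1
  mult : ∀ c : ℕ, (π t).charpoly.rootMultiplicity (c : PadicAlgCl ℓ) =
    (R t).charpoly.rootMultiplicity (c : ℂ_[p])
  order : ∀ (j : ℕ) (x : PadicAlgCl ℓ) (M : ℕ), 0 < M → x ^ M = 1 →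
    (π t).charpoly.IsRoot ((q : PadicAlgCl ℓ) ^ j * x) →
    ∃ n b : ℕ, 0 < n ∧ n.totient ≤ y + m ∧ x ^ (n * p ^ b) = 1

end Pool.Agent.UB
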