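import Pool.Agent.Lib_helper61.TU.Statement

/-!
# Representations with two lattices: definitions
-/

set_option autoImplicit false

namespace Pool.Agent.UB

open Matrix

/-- All matrices `X(g)` of size `y + m` over `ℂ_[p]` have integral entries, the entries of their
lower left blocks (of size `m × y`) are divisible by `lam`, and their upper left blocks (of size
`y × y`) are congruent to the identity modulo `lam`: `X(g) = (1 + lam a, b; lam c, d)` with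
integral `a`, `b`, `c`, `d`. -/
def TwoLattices {G : Type} {p : ℕ} [Fact p.Prime] {y m : ℕ}
    (X : G → Matrix (Fin y ⊕ Fin m) (Fin y ⊕ Fin m) ℂ_[p]) (lam : ℂ_[p]) : Prop :=
  ∀ g, (∀ i j, ‖X g i j‖ ≤ 1) ∧ (∀ i j, ‖(X g).toBlocks₂₁ i j‖ ≤ ‖lam‖) ∧
    ∀ i j, ‖((X g).toBlocks₁₁ - 1) i j‖ ≤ ‖lam‖

/-- For `X = (A, b; lam c, d)` and `X' = (A', b'; lam c', d')` this is the matrix `b c' - b' c`. -/
noncomputable def bracket {p : ℕ} [Fact p.Prime] {y m : ℕ} (lam : ℂ_[p])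
    (X X' : Matrix (Fin y ⊕ Fin m) (Fin y ⊕ Fin m) ℂ_[p]) : Matrix (Fin y) (Fin y) ℂ_[p] :=
  lam⁻¹ • (X.toBlocks₁₂ * X'.toBlocks₂₁ - X'.toBlocks₁₂ * X.toBlocks₂₁)

/-- For `X = (1 + lam a, b; lam c, d)` this is the matrix `a - b (d - 1)⁻¹ c`. -/
noncomputable def schur {p : ℕ} [Fact p.Prime] {y m : ℕ} (lam : ℂ_[p])
    (X : Matrix (Fin y ⊕ Fin m) (Fin y ⊕ Fin m) ℂ_[p]) : Matrix (Fin y) (Fin y) ℂ_[p] :=
  lam⁻¹ • (X.toBlocks₁₁ - 1 - X.toBlocks₁₂ * (X.toBlocks₂₂ - 1)⁻¹ * X.toBlocks₂₁)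

/-- The lower right block of `X` is congruent to the identity modulo the maximal ideal. -/
def ResiduallyOne {p : ℕ} [Fact p.Prime] {y m : ℕ}
    (X : Matrix (Fin y ⊕ Fin m) (Fin y ⊕ Fin m) ℂ_[p]) : Prop :=
  ∀ i j, ‖(X.toBlocks₂₂ - 1) i j‖ < 1

/-- For every `g` such that `det(d(g) - 1)` is a unit there are elements `u_i`, `v_i` with `d`
residually equal to one such that the coefficient of `X ^ e` in the characteristic polynomial of
`a(g) - b(g) (d(g) - 1)⁻¹ c(g) + ∑ (b(u_i) c(v_i) - b(v_i) c(u_i))` is a unit. -/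
def ManyBrackets {G : Type} {p : ℕ} [Fact p.Prime] {y m : ℕ}
    (X : G → Matrix (Fin y ⊕ Fin m) (Fin y ⊕ Fin m) ℂ_[p]) (lam : ℂ_[p]) (e : ℕ) : Prop :=
  ∀ g, ‖((X g).toBlocks₂₂ - 1).det‖ = 1 → ∃ (r : ℕ) (u v : Fin r → G),
    (∀ i, ResiduallyOne (X (u i)) ∧ ResiduallyOne (X (v i))) ∧
      ‖(schur lam (X g) + ∑ i, bracket lam (X (u i)) (X (v i))).charpoly.coeff e‖ = 1

end Pool.Agent.UB
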